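import Mathlib

set_option autoImplicit false

open Finset

namespace Pool.Agent.Lib.MP_f0992b_nt

/-- `D r θ = |1 - r e^{iθ}|`. -/
noncomputable def D (r θ : ℝ) : ℝ := ‖1 - (r : ℂ) * Complex.exp (θ * Complex.I)‖

lemma D_nonneg (r θ : ℝ) : 0 ≤ D r θ := norm_nonneg _

lemma D_sq (r θ : ℝ) : D r θ ^ 2 = 1 - 2 * r * Real.cos θ + r ^ 2 := by
  unfold D
  rw [← Complex.normSq_eq_norm_sq, Complex.exp_mul_I, Complex.normSq_apply]
  simp only [Complex.sub_re, Complex.one_re, Complex.mul_re, Complex.ofReal_re, Complex.add_re,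
    Complex.cos_ofReal_re, Complex.I_re, mul_zero, Complex.sin_ofReal_re, Complex.I_im,
    Complex.sin_ofReal_im, mul_one, Complex.ofReal_im, Complex.add_im, Complex.cos_ofReal_im,
    Complex.mul_im, Complex.sub_im, Complex.one_im]
  have h := Real.sin_sq_add_cos_sq θ
  nlinarith [h]

lemma D_ge (r θ : ℝ) (hr : 0 ≤ r) : 1 - r ≤ D r θ := by
  by_cases h1 : 1 - r ≤ 0
  · exact h1.trans (D_nonneg r θ)
  · push Not at h1
    have h2 : (1 - r) ^ 2 ≤ D r θ ^ 2 := by
      rw [D_sq]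
      nlinarith [Real.cos_le_one θ]
    exact le_of_sq_le_sq h2 (D_nonneg r θ)

lemma D_one_le (r θ : ℝ) (hr : 0 ≤ r) : D 1 θ ≤ 2 / (1 + r) * D r θ := by
  have h0 : 0 < 1 + r := by linarith
  have h1 : 0 ≤ 2 / (1 + r) * D r θ := mul_nonneg (by positivity) (D_nonneg r θ)
  apply le_of_sq_le_sq _ h1
  rw [mul_pow, D_sq, D_sq, div_pow, div_mul_eq_mul_div, le_div_iff₀ (by positivity)]
  nlinarith [Real.neg_one_le_cos θ, Real.cos_le_one θ, sq_nonneg (1 - r),
    mul_nonneg (sq_nonneg (1 - r)) (by linarith [Real.neg_one_le_cos θ] : (0:ℝ) ≤ 1 + Real.cos θ)]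

lemma abs_sub_eq (φ ψ : ℝ) :
    |2 * Real.cos φ - 2 * Real.cos ψ| = D 1 (φ + ψ) * D 1 (φ - ψ) := by
  have h1 : 0 ≤ D 1 (φ + ψ) * D 1 (φ - ψ) := mul_nonneg (D_nonneg _ _) (D_nonneg _ _)
  rw [← abs_of_nonneg h1, ← sq_eq_sq_iff_abs_eq_abs, mul_pow, D_sq, D_sq, Real.cos_add,
    Real.cos_sub]
  have h2 := Real.sin_sq_add_cos_sq φ
  have h3 := Real.sin_sq_add_cos_sq ψ
  have h4 : Real.sin φ ^ 2 = 1 - Real.cos φ ^ 2 := by linarith
  have h5 : Real.sin ψ ^ 2 = 1 - Real.cos ψ ^ 2 := by linarith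
  have h6 : (1 - 2 * 1 * (Real.cos φ * Real.cos ψ - Real.sin φ * Real.sin ψ) + 1 ^ 2) *
      (1 - 2 * 1 * (Real.cos φ * Real.cos ψ + Real.sin φ * Real.sin ψ) + 1 ^ 2) =
      4 * (1 - Real.cos φ * Real.cos ψ) ^ 2 - 4 * (Real.sin φ ^ 2 * Real.sin ψ ^ 2) := by ring
  rw [h6, h4, h5]
  ring

lemma hasSum_neg_log_D (r θ : ℝ) (hr : 0 ≤ r) (hr1 : r < 1) :
    HasSum (fun n : ℕ => r ^ n * Real.cos (n * θ) / n) (- Real.log (D r θ)) := by
  have hz : ‖(r : ℂ) * Complex.exp (θ * Complex.I)‖ < 1 := by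
    rw [norm_mul, Complex.norm_exp_ofReal_mul_I, mul_one, Complex.norm_real, Real.norm_eq_abs,
      abs_of_nonneg hr]
    exact hr1
  have h := Complex.hasSum_re (Complex.hasSum_taylorSeries_neg_log hz)
  rw [Complex.neg_re, Complex.log_re] at h
  have h3 : ∀ n : ℕ, (((r : ℂ) * Complex.exp (θ * Complex.I)) ^ n / (n : ℂ)).re =
      r ^ n * Real.cos (n * θ) / n := by
    intro n
    have h2 : (n : ℂ) * (θ * Complex.I) = ((n * θ : ℝ) : ℂ) * Complex.I := by push_cast; ring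
    rw [mul_pow, ← Complex.exp_nat_mul, h2, ← Complex.ofReal_pow, ← Complex.ofReal_natCast,
      Complex.div_ofReal_re, Complex.re_ofReal_mul, Complex.exp_ofReal_mul_I_re]
  simp only [h3] at h
  exact h

/-- The energy inequality for the smoothed logarithmic kernel. -/
lemma energy {ι : Type*} [Fintype ι] (φ : ι → ℝ) (r : ℝ) (hr : 0 ≤ r) (hr1 : r < 1) :
    r ^ 2 * (∑ i, Real.cos (2 * φ i)) ^ 2 ≤
      ∑ i, ∑ j, (- Real.log (D r (φ i + φ j)) - Real.log (D r (φ i - φ j))) := by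
  have h1 : ∀ i j, HasSum (fun n : ℕ => r ^ n * Real.cos (n * (φ i + φ j)) / n +
      r ^ n * Real.cos (n * (φ i - φ j)) / n)
      (- Real.log (D r (φ i + φ j)) - Real.log (D r (φ i - φ j))) := by
    intro i j
    have := (hasSum_neg_log_D r (φ i + φ j) hr hr1).add (hasSum_neg_log_D r (φ i - φ j) hr hr1)
    simpa [sub_eq_add_neg] using this
  have h2 : HasSum (fun n : ℕ => ∑ i, ∑ j, (r ^ n * Real.cos (n * (φ i + φ j)) / n +
      r ^ n * Real.cos (n * (φ i - φ j)) / n))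
      (∑ i, ∑ j, (- Real.log (D r (φ i + φ j)) - Real.log (D r (φ i - φ j)))) :=
    hasSum_sum fun i _ => hasSum_sum fun j _ => h1 i j
  have h3 : ∀ n : ℕ, ∑ i, ∑ j, (r ^ n * Real.cos (n * (φ i + φ j)) / n +
      r ^ n * Real.cos (n * (φ i - φ j)) / n) =
      r ^ n / n * 2 * (∑ i, Real.cos (n * φ i)) ^ 2 := by
    intro n
    rw [sq, Finset.sum_mul_sum, Finset.mul_sum]
    apply Finset.sum_congr rfl
    intro i _
    rw [Finset.mul_sum]
    apply Finset.sum_congr rfl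
    intro j _
    rw [mul_add, mul_sub, Real.cos_add, Real.cos_sub]
    ring
  have h4 := le_hasSum h2 2 (fun n _ => by
    rw [h3 n]
    positivity)
  rw [h3 2] at h4
  calc r ^ 2 * (∑ i, Real.cos (2 * φ i)) ^ 2
      = r ^ 2 / (2 : ℕ) * 2 * (∑ i, Real.cos ((2 : ℕ) * φ i)) ^ 2 := by push_cast; ring
    _ ≤ _ := h4

/-- Main inequality. For points of `[-2,2]` whose discriminant-type product is at least one,
the second moment is close to `2`. -/
lemma main_ineq {ι : Type*} [Fintype ι] (x : ι → ℝ) (hx : ∀ i, |x i| ≤ 2)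
    (hlog : 0 ≤ ∑ i, ∑ j, if x i = x j then 0 else Real.log |x i - x j|)
    (E : ℝ) (hE : ∑ i, ∑ j, (if x i = x j then (1 : ℝ) else 0) ≤ E)
    (r : ℝ) (hr : 0 ≤ r) (hr1 : r < 1) :
    r ^ 2 * (∑ i, (x i ^ 2 - 2)) ^ 2 / 4 ≤
      (Fintype.card ι : ℝ) ^ 2 * (2 * Real.log (2 / (1 + r))) +
        E * (2 * (- Real.log (1 - r))) := by
  set φ : ι → ℝ := fun i => Real.arccos (x i / 2) with hφ
  have hcos : ∀ i, 2 * Real.cos (φ i) = x i := by
    intro i
    have h := abs_le.mp (hx i)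
    rw [hφ]
    simp only
    rw [Real.cos_arccos (by linarith [h.1]) (by linarith [h.2])]
    ring
  have hT : ∑ i, (x i ^ 2 - 2) = 2 * ∑ i, Real.cos (2 * φ i) := by
    rw [Finset.mul_sum]
    apply Finset.sum_congr rfl
    intro i _
    rw [Real.cos_two_mul, ← hcos i]
    ring
  have hen := energy φ r hr hr1
  have hlogr : 0 ≤ - Real.log (1 - r) := by
    have := Real.log_nonpos (by linarith : (0:ℝ) ≤ 1 - r) (by linarith)
    linarith
  have hlog2 : 0 ≤ Real.log (2 / (1 + r)) := by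
    apply Real.log_nonneg
    rw [le_div_iff₀ (by linarith)]
    linarith
  have hDlog : ∀ θ, Real.log (1 - r) ≤ Real.log (D r θ) := fun θ =>
    Real.log_le_log (by linarith) (D_ge r θ hr)
  have hpair : ∀ i j, (if x i = x j then 0 else Real.log |x i - x j|) ≤
      2 * Real.log (2 / (1 + r)) + (Real.log (D r (φ i + φ j)) + Real.log (D r (φ i - φ j))) +
        (if x i = x j then (1 : ℝ) else 0) * (2 * (- Real.log (1 - r))) := by
    intro i j
    split_ifs with h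
    · have h1 := hDlog (φ i + φ j)
      have h2 := hDlog (φ i - φ j)
      linarith
    · have hne : 0 < |x i - x j| := abs_pos.mpr (sub_ne_zero.mpr h)
      have hle : |x i - x j| ≤ (2 / (1 + r) * D r (φ i + φ j)) * (2 / (1 + r) * D r (φ i - φ j)) := by
        rw [← hcos i, ← hcos j, abs_sub_eq]
        exact mul_le_mul (D_one_le r _ hr) (D_one_le r _ hr) (D_nonneg _ _)
          (mul_nonneg (by positivity) (D_nonneg _ _))
      have hp : ∀ θ, 0 < D r θ := fun θ => lt_of_lt_of_le (by linarith) (D_ge r θ hr)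
      have h3 := Real.log_le_log hne hle
      have h4 : (0:ℝ) < 2 / (1 + r) := by positivity
      rw [Real.log_mul (by positivity [hp (φ i + φ j)]) (by positivity [hp (φ i - φ j)]),
        Real.log_mul h4.ne' (hp _).ne', Real.log_mul h4.ne' (hp _).ne'] at h3
      linarith
  have hsum : ∑ i, ∑ j, (if x i = x j then 0 else Real.log |x i - x j|) ≤
      ∑ i, ∑ j, (2 * Real.log (2 / (1 + r)) +
        (Real.log (D r (φ i + φ j)) + Real.log (D r (φ i - φ j))) +
        (if x i = x j then (1 : ℝ) else 0) * (2 * (- Real.log (1 - r)))) :=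
    Finset.sum_le_sum fun i _ => Finset.sum_le_sum fun j _ => hpair i j
  have hsplit : ∑ i, ∑ j, (2 * Real.log (2 / (1 + r)) +
        (Real.log (D r (φ i + φ j)) + Real.log (D r (φ i - φ j))) +
        (if x i = x j then (1 : ℝ) else 0) * (2 * (- Real.log (1 - r)))) =
      (Fintype.card ι : ℝ) ^ 2 * (2 * Real.log (2 / (1 + r))) -
        ∑ i, ∑ j, (- Real.log (D r (φ i + φ j)) - Real.log (D r (φ i - φ j))) +
        (∑ i, ∑ j, (if x i = x j then (1 : ℝ) else 0)) * (2 * (- Real.log (1 - r))) := by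
    simp only [Finset.sum_add_distrib, Finset.sum_sub_distrib, Finset.sum_neg_distrib,
      Finset.sum_const, Finset.card_univ, nsmul_eq_mul, ← Finset.sum_mul]
    ring
  rw [hsplit] at hsum
  have hE2 : (∑ i, ∑ j, (if x i = x j then (1 : ℝ) else 0)) * (2 * (- Real.log (1 - r))) ≤
      E * (2 * (- Real.log (1 - r))) :=
    mul_le_mul_of_nonneg_right hE (by linarith)
  rw [hT]
  nlinarith [hen, hsum, hE2, hlog]

/-- Second moment lemma: if the points `x i` of `[-2,2]` have nonnegative total logarithmic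
energy (over pairs of different values) and few coincidences, then the mean of `x i ^ 2` is
close to `2`. -/
lemma second_moment (ε : ℝ) (hε : 0 < ε) : ∃ δ : ℝ, 0 < δ ∧
    ∀ (ι : Type) [Fintype ι] (x : ι → ℝ), (∀ i, |x i| ≤ 2) →
      (0 ≤ ∑ i, ∑ j, if x i = x j then 0 else Real.log |x i - x j|) →
      (∑ i, ∑ j, (if x i = x j then (1 : ℝ) else 0) ≤ δ * (Fintype.card ι : ℝ) ^ 2) →
      |∑ i, (x i ^ 2 - 2)| ≤ ε * Fintype.card ι := by
  set η : ℝ := min (ε ^ 2 / 64) (1 / 2) with hη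
  have hη0 : 0 < η := lt_min (by positivity) (by norm_num)
  have hη1 : η ≤ 1 / 2 := min_le_right _ _
  have hη2 : η ≤ ε ^ 2 / 64 := min_le_left _ _
  have hlog : 0 ≤ - Real.log η := by
    have := Real.log_nonpos hη0.le (by linarith)
    linarith
  refine ⟨ε ^ 2 / (64 * (- Real.log η + 1)), by positivity, ?_⟩
  intro ι _ x hx h0 hE
  set n : ℝ := (Fintype.card ι : ℝ) with hn
  have hn0 : 0 ≤ n := Nat.cast_nonneg _
  have hmain := main_ineq x hx h0 _ hE (1 - η) (by linarith) (by linarith)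
  have h1 : Real.log (2 / (1 + (1 - η))) ≤ η := by
    have hpos : (0:ℝ) < 2 / (1 + (1 - η)) := by
      apply div_pos <;> linarith
    have h2 := Real.log_le_sub_one_of_pos hpos
    have h3 : 2 / (1 + (1 - η)) - 1 ≤ η := by
      rw [sub_le_iff_le_add, div_le_iff₀ (by linarith)]
      nlinarith
    linarith
  have h2 : (1:ℝ) - (1 - η) = η := by ring
  rw [h2] at hmain
  have h3 : (1 / 4 : ℝ) ≤ (1 - η) ^ 2 := by nlinarith
  set T := ∑ i, (x i ^ 2 - 2) with hT
  have h4 : T ^ 2 / 16 ≤ (1 - η) ^ 2 * T ^ 2 / 4 := by nlinarith [sq_nonneg T]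
  have h5 : n ^ 2 * (2 * Real.log (2 / (1 + (1 - η)))) ≤ n ^ 2 * (2 * (ε ^ 2 / 64)) := by
    apply mul_le_mul_of_nonneg_left _ (sq_nonneg n)
    linarith
  have h6 : ε ^ 2 / (64 * (- Real.log η + 1)) * n ^ 2 * (2 * (- Real.log η)) ≤
      n ^ 2 * (2 * (ε ^ 2 / 64)) := by
    have h7 : ε ^ 2 / (64 * (- Real.log η + 1)) * (- Real.log η) ≤ ε ^ 2 / 64 := by
      rw [div_mul_eq_mul_div, div_le_div_iff₀ (by positivity) (by norm_num)]
      nlinarith [sq_nonneg ε]
    nlinarith [sq_nonneg n]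
  have h8 : T ^ 2 ≤ (ε * n) ^ 2 := by
    have : T ^ 2 / 16 ≤ n ^ 2 * (2 * (ε ^ 2 / 64)) + n ^ 2 * (2 * (ε ^ 2 / 64)) := by linarith
    nlinarith
  exact abs_le_of_sq_le_sq h8 (by positivity)

end Pool.Agent.Lib.MP_f0992b_nt
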