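import Mathlib
import Pool.Agent.Lib.MP_f0992b_nt.Energy

set_option autoImplicit false

open Finset Polynomial

namespace Pool.Agent.Lib.MP_f0992b_nt

/-- A polynomial over `ℤ` vanishing at one primitive `N`-th root of unity vanishes at all. -/
lemma aeval_eq_zero_of_primitive {N : ℕ} (hN : 0 < N) {ζ ζ' : ℂ} (h : IsPrimitiveRoot ζ N)
    (h' : IsPrimitiveRoot ζ' N) {f : ℤ[X]} (hf : aeval ζ f = 0) : aeval ζ' f = 0 := by
  have h1 : minpoly ℤ ζ ∣ f := minpoly.isIntegrallyClosed_dvd (h.isIntegral hN) hf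
  rw [← cyclotomic_eq_minpoly h hN, cyclotomic_eq_minpoly h' hN] at h1
  obtain ⟨g, rfl⟩ := h1
  rw [map_mul, minpoly.aeval, zero_mul]

/-- The product of the values at primitive roots is an integer. -/
lemma prod_int {N : ℕ} (f : ℤ[X]) :
    ∃ m : ℤ, ∏ ζ ∈ primitiveRoots N ℂ, aeval ζ f = (m : ℂ) := by
  refine ⟨resultant (cyclotomic N ℤ) f (cyclotomic N ℤ).natDegree f.natDegree, ?_⟩
  have h1 := resultant_map_map (f := cyclotomic N ℤ) (g := f)
    (m := (cyclotomic N ℤ).natDegree) (n := f.natDegree) (Int.castRingHom ℂ)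
  have hdeg : (cyclotomic N ℤ).natDegree = (cyclotomic N ℂ).natDegree := by
    rw [natDegree_cyclotomic, natDegree_cyclotomic]
  rw [map_cyclotomic, hdeg] at h1
  have h2 := resultant_eq_prod_eval (cyclotomic N ℂ) (f.map (Int.castRingHom ℂ)) f.natDegree
    natDegree_map_le (IsAlgClosed.splits _)
  rw [h1, (cyclotomic.monic N ℂ).leadingCoeff, one_pow, one_mul] at h2
  rw [hdeg]
  have h3 : ((resultant (cyclotomic N ℤ) f (cyclotomic N ℂ).natDegree f.natDegree : ℤ) : ℂ) =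
      (Int.castRingHom ℂ) (resultant (cyclotomic N ℤ) f (cyclotomic N ℂ).natDegree f.natDegree) :=
    rfl
  rw [h3, h2]
  rcases Nat.eq_zero_or_pos N with rfl | hN
  · simp
  · have : NeZero (N : ℂ) := ⟨by exact_mod_cast hN.ne'⟩
    rw [cyclotomic.roots_eq_primitiveRoots_val]
    rw [Finset.prod]
    congr 1
    apply Multiset.map_congr rfl
    intro z _
    rw [eval_map, aeval_def]
    rfl

lemma one_le_prod_norm {N : ℕ} (hN : 0 < N) {ζ : ℂ} (h : IsPrimitiveRoot ζ N) {f : ℤ[X]}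
    (hf : aeval ζ f ≠ 0) : 1 ≤ ∏ ζ' ∈ primitiveRoots N ℂ, ‖aeval ζ' f‖ := by
  obtain ⟨m, hm⟩ := prod_int (N := N) f
  have hne : ∏ ζ' ∈ primitiveRoots N ℂ, aeval ζ' f ≠ 0 := by
    rw [Finset.prod_ne_zero_iff]
    intro ζ' hζ' h0
    exact hf (aeval_eq_zero_of_primitive hN (isPrimitiveRoot_of_mem_primitiveRoots hζ') h h0)
  rw [hm] at hne
  rw [← norm_prod, hm]
  have hm0 : m ≠ 0 := by exact_mod_cast hne
  have : (1 : ℤ) ≤ |m| := Int.one_le_abs hm0
  rw [Complex.norm_intCast]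
  exact_mod_cast this

lemma ne_zero_of_primitive {N : ℕ} (hN : 0 < N) {ζ ζ' : ℂ} (h : IsPrimitiveRoot ζ N)
    (h' : IsPrimitiveRoot ζ' N) {f : ℤ[X]} (hf : aeval ζ f ≠ 0) : aeval ζ' f ≠ 0 :=
  fun h0 => hf (aeval_eq_zero_of_primitive hN h' h h0)

/-- The mean of `|f(ζ)|^2` over primitive roots is at least one if it is not zero. -/
lemma card_le_sum_norm_sq {N : ℕ} (hN : 0 < N) {ζ : ℂ} (h : IsPrimitiveRoot ζ N) {f : ℤ[X]}
    (hf : aeval ζ f ≠ 0) :
    ((primitiveRoots N ℂ).card : ℝ) ≤ ∑ ζ' ∈ primitiveRoots N ℂ, ‖aeval ζ' f‖ ^ 2 := by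
  have h1 := one_le_prod_norm hN h hf
  have hpos : ∀ ζ' ∈ primitiveRoots N ℂ, 0 < ‖aeval ζ' f‖ := fun ζ' hζ' =>
    norm_pos_iff.mpr (ne_zero_of_primitive hN h (isPrimitiveRoot_of_mem_primitiveRoots hζ') hf)
  have h2 : 0 ≤ ∑ ζ' ∈ primitiveRoots N ℂ, Real.log ‖aeval ζ' f‖ := by
    rw [← Real.log_prod (fun ζ' hζ' => (hpos ζ' hζ').ne')]
    exact Real.log_nonneg h1
  have h3 : ∀ ζ' ∈ primitiveRoots N ℂ, 1 + 2 * Real.log ‖aeval ζ' f‖ ≤ ‖aeval ζ' f‖ ^ 2 := by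
    intro ζ' hζ'
    have h4 := Real.log_le_sub_one_of_pos (pow_pos (hpos ζ' hζ') 2)
    rw [Real.log_pow] at h4
    push_cast at h4
    linarith
  calc ((primitiveRoots N ℂ).card : ℝ) ≤
      (primitiveRoots N ℂ).card + 2 * ∑ ζ' ∈ primitiveRoots N ℂ, Real.log ‖aeval ζ' f‖ := by
        linarith
    _ = ∑ ζ' ∈ primitiveRoots N ℂ, (1 + 2 * Real.log ‖aeval ζ' f‖) := by
        rw [Finset.sum_add_distrib, Finset.mul_sum]
        simp
    _ ≤ _ := Finset.sum_le_sum h3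

/-- Distance bound: the mean of `|f(ζ) - c|^2` is at least `h^2` where `h` is the distance of
`c` to the nearest integer. -/
lemma dist_bound {N : ℕ} (hN : 0 < N) (c : ℝ) (f : ℤ[X]) :
    ((primitiveRoots N ℂ).card : ℝ) * (c - round c) ^ 2 ≤
      ∑ ζ' ∈ primitiveRoots N ℂ, ‖aeval ζ' f - (c : ℂ)‖ ^ 2 := by
  have hh : (c - round c) ^ 2 ≤ 1 / 4 := by
    have := abs_sub_round c
    rw [← sq_abs]
    have h0 := abs_nonneg (c - round c)
    nlinarith
  set g : ℤ[X] := f - C (round c) with hg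
  obtain ⟨ζ, hζ⟩ : ∃ ζ : ℂ, IsPrimitiveRoot ζ N := ⟨_, Complex.isPrimitiveRoot_exp N hN.ne'⟩
  have hev : ∀ z : ℂ, aeval z g = aeval z f - (round c : ℂ) := by
    intro z
    rw [hg, map_sub, aeval_C]
    simp
  by_cases h0 : aeval ζ g = 0
  · have h1 : ∀ ζ' ∈ primitiveRoots N ℂ, ‖aeval ζ' f - (c : ℂ)‖ ^ 2 = (c - round c) ^ 2 := by
      intro ζ' hζ'
      have h2 := aeval_eq_zero_of_primitive hN hζ (isPrimitiveRoot_of_mem_primitiveRoots hζ') h0
      rw [hev, sub_eq_zero] at h2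
      rw [h2, ← Complex.ofReal_intCast, ← Complex.ofReal_sub, Complex.norm_real, Real.norm_eq_abs,
        sq_abs]
      ring
    rw [Finset.sum_congr rfl h1]
    simp
  · have h1 := card_le_sum_norm_sq hN hζ h0
    have h2 : ∀ ζ' ∈ primitiveRoots N ℂ, 1 / 2 * ‖aeval ζ' g‖ ^ 2 - (c - round c) ^ 2 ≤
        ‖aeval ζ' f - (c : ℂ)‖ ^ 2 := by
      intro ζ' _
      have h3 : aeval ζ' g = (aeval ζ' f - (c : ℂ)) + ((c - round c : ℝ) : ℂ) := by
        rw [hev]; push_cast; ring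
      have h4 : ‖aeval ζ' g‖ ≤ ‖aeval ζ' f - (c : ℂ)‖ + |c - round c| := by
        rw [h3]
        refine (norm_add_le _ _).trans ?_
        rw [Complex.norm_real, Real.norm_eq_abs]
      have h5 := norm_nonneg (aeval ζ' g)
      have h6 := sq_abs (c - round c)
      nlinarith [sq_nonneg (‖aeval ζ' f - (c : ℂ)‖ - |c - round c|), norm_nonneg (aeval ζ' f - (c : ℂ)),
        abs_nonneg (c - round c)]
    calc ((primitiveRoots N ℂ).card : ℝ) * (c - round c) ^ 2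
        ≤ ((primitiveRoots N ℂ).card : ℝ) * (1 / 2 - (c - round c) ^ 2) := by
          apply mul_le_mul_of_nonneg_left _ (Nat.cast_nonneg _)
          linarith
      _ ≤ ∑ ζ' ∈ primitiveRoots N ℂ, (1 / 2 * ‖aeval ζ' g‖ ^ 2 - (c - round c) ^ 2) := by
          rw [Finset.sum_sub_distrib, ← Finset.mul_sum]
          simp only [Finset.sum_const, nsmul_eq_mul]
          nlinarith
      _ ≤ _ := Finset.sum_le_sum h2

end Pool.Agent.Lib.MP_f0992b_nt
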