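import Mathlib
import Pool.Agent.Lib.MP_f0992b_nt.Cyclo

set_option autoImplicit false

open Finset Polynomial

namespace Pool.Agent.Lib.MP_f0992b_nt

/-- exponents coprime to `N` -/
def U (N : ℕ) : Finset ℕ := (Finset.range N).filter (fun u => u.Coprime N)

lemma mem_U {N u : ℕ} : u ∈ U N ↔ u < N ∧ u.Coprime N := by
  unfold U; rw [Finset.mem_filter, Finset.mem_range]

/-- Sum over primitive roots as a sum over exponents. -/
lemma sum_primitive_eq {N : ℕ} (hN : 0 < N) {ζ : ℂ} (h : IsPrimitiveRoot ζ N) (F : ℂ → ℝ) :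
    ∑ ζ' ∈ primitiveRoots N ℂ, F ζ' = ∑ u ∈ U N, F (ζ ^ u) := by
  have : NeZero N := ⟨hN.ne'⟩
  symm
  apply Finset.sum_nbij (fun u => ζ ^ u)
  · intro u hu
    rw [mem_U] at hu
    rw [mem_primitiveRoots hN]
    exact h.pow_of_coprime u hu.2
  · intro a ha b hb hab
    rw [Finset.mem_coe, mem_U] at ha hb
    exact h.pow_inj ha.1 hb.1 hab
  · intro ξ hξ
    rw [Finset.mem_coe, mem_primitiveRoots hN, h.isPrimitiveRoot_iff] at hξ
    obtain ⟨i, hi, hc, rfl⟩ := hξ
    exact ⟨i, by rw [Finset.mem_coe, mem_U]; exact ⟨hi, hc⟩, rfl⟩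
  · intro u _; rfl

/-- Raising to a power coprime to `N` permutes the primitive roots. -/
lemma sum_primitive_pow {N : ℕ} (hN : 0 < N) {u : ℕ} (hu : u.Coprime N) (F : ℂ → ℝ) :
    ∑ ζ ∈ primitiveRoots N ℂ, F (ζ ^ u) = ∑ ζ ∈ primitiveRoots N ℂ, F ζ := by
  have hinj : Set.InjOn (fun z : ℂ => z ^ u) (primitiveRoots N ℂ : Set ℂ) := by
    intro a ha b hb hab
    rw [Finset.mem_coe, mem_primitiveRoots hN] at ha hb
    simp only at hab
    have hcop : (u : ℤ).gcd N = 1 := by exact_mod_cast hu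
    have hb' := Int.gcd_eq_gcd_ab u N
    rw [hcop] at hb'
    have key : ∀ z : ℂ, z ^ N = 1 → z = (z ^ u) ^ (Int.gcdA u N) := by
      intro z hz
      have hz0 : z ≠ 0 := by
        rintro rfl
        rw [zero_pow hN.ne'] at hz
        exact zero_ne_one hz
      calc z = z ^ ((1 : ℕ) : ℤ) := by simp
        _ = z ^ ((u : ℤ) * Int.gcdA u N + (N : ℤ) * Int.gcdB u N) := by rw [← hb']
        _ = (z ^ u) ^ (Int.gcdA u N) := by
          rw [zpow_add₀ hz0, zpow_mul, zpow_mul, zpow_natCast, zpow_natCast, hz, one_zpow, mul_one]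
    rw [key a ha.pow_eq_one, key b hb.pow_eq_one, hab]
  have himg : (primitiveRoots N ℂ).image (fun z => z ^ u) = primitiveRoots N ℂ := by
    apply Finset.eq_of_subset_of_card_le
    · intro z hz
      rw [Finset.mem_image] at hz
      obtain ⟨w, hw, rfl⟩ := hz
      rw [mem_primitiveRoots hN] at hw ⊢
      exact hw.pow_of_coprime u hu
    · rw [Finset.card_image_of_injOn hinj]
  conv_rhs => rw [← himg]
  rw [Finset.sum_image hinj]

lemma aeval_comp_pow (f : ℤ[X]) (u : ℕ) (z : ℂ) : aeval z (f.comp (X ^ u)) = aeval (z ^ u) f := by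
  rw [aeval_comp, map_pow, aeval_X]

/-- relation between values transported by Galois action -/
lemma eq_iff_eq {N : ℕ} (hN : 0 < N) {ζ ζ' : ℂ} (h : IsPrimitiveRoot ζ N)
    (h' : IsPrimitiveRoot ζ' N) (f : ℤ[X]) (u : ℕ) :
    aeval (ζ ^ u) f = aeval ζ f ↔ aeval (ζ' ^ u) f = aeval ζ' f := by
  have key : ∀ z w : ℂ, IsPrimitiveRoot z N → IsPrimitiveRoot w N →
      aeval (z ^ u) f = aeval z f → aeval (w ^ u) f = aeval w f := by
    intro z w hz hw hzw
    have h1 : aeval z (f.comp (X ^ u) - f) = 0 := by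
      rw [map_sub, aeval_comp_pow, hzw, sub_self]
    have h2 := aeval_eq_zero_of_primitive hN hz hw h1
    rw [map_sub, aeval_comp_pow, sub_eq_zero] at h2
    exact h2
  exact ⟨key ζ ζ' h h', key ζ' ζ h' h⟩

/-- Set of values of `f` at the primitive roots. -/
noncomputable def V (N : ℕ) (f : ℤ[X]) : Finset ℂ := by
  classical exact (primitiveRoots N ℂ).image (fun z => aeval z f)

open Classical in
/-- Number of coincidences. -/
lemma coincidences {N : ℕ} (hN : 0 < N) (f : ℤ[X]) :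
    (∑ ζ ∈ primitiveRoots N ℂ, ∑ ζ' ∈ primitiveRoots N ℂ,
      (if aeval ζ f = aeval ζ' f then (1 : ℝ) else 0)) * (V N f).card =
      ((primitiveRoots N ℂ).card : ℝ) ^ 2 := by
  obtain ⟨ζ₀, hζ₀⟩ : ∃ ζ : ℂ, IsPrimitiveRoot ζ N := ⟨_, Complex.isPrimitiveRoot_exp N hN.ne'⟩
  set k : ℝ := ∑ ζ' ∈ primitiveRoots N ℂ, (if aeval ζ₀ f = aeval ζ' f then (1 : ℝ) else 0) with hk
  have h1 : ∀ ζ ∈ primitiveRoots N ℂ, ∑ ζ' ∈ primitiveRoots N ℂ,
      (if aeval ζ f = aeval ζ' f then (1 : ℝ) else 0) = k := by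
    intro ζ hζ
    rw [mem_primitiveRoots hN] at hζ
    rw [hk, sum_primitive_eq hN hζ, sum_primitive_eq hN hζ₀]
    apply Finset.sum_congr rfl
    intro u _
    have h3 := eq_iff_eq hN hζ hζ₀ f u
    by_cases h : aeval (ζ ^ u) f = aeval ζ f
    · rw [if_pos h.symm, if_pos (h3.mp h).symm]
    · rw [if_neg (fun h' => h h'.symm), if_neg (fun h' => h (h3.mpr h'.symm))]
  have h2 : ((primitiveRoots N ℂ).card : ℝ) = (V N f).card * k := by
    have h3 : (primitiveRoots N ℂ).card = ∑ v ∈ V N f,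
        ((primitiveRoots N ℂ).filter (fun z => aeval z f = v)).card := by
      unfold V
      apply Finset.card_eq_sum_card_image
    rw [h3]
    push_cast
    have h4 : ∀ v ∈ V N f, (((primitiveRoots N ℂ).filter (fun z => aeval z f = v)).card : ℝ) = k := by
      intro v hv
      unfold V at hv
      rw [Finset.mem_image] at hv
      obtain ⟨ζ, hζ, rfl⟩ := hv
      rw [← h1 ζ hζ, Finset.card_filter]
      push_cast
      apply Finset.sum_congr rfl
      intro z _
      by_cases h : aeval z f = aeval ζ f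
      · rw [if_pos h, if_pos h.symm]
      · rw [if_neg h, if_neg (fun h' => h h'.symm)]
    rw [Finset.sum_congr rfl h4]
    simp
  rw [Finset.sum_congr rfl h1, Finset.sum_const, nsmul_eq_mul]
  conv_rhs => rw [sq, h2]
  rw [h2]
  ring

open Classical in
/-- Nonnegativity of the logarithmic energy. -/
lemma log_energy_nonneg {N : ℕ} (hN : 0 < N) (f : ℤ[X]) :
    0 ≤ ∑ ζ ∈ primitiveRoots N ℂ, ∑ ζ' ∈ primitiveRoots N ℂ,
      (if aeval ζ f = aeval ζ' f then (0 : ℝ) else Real.log ‖aeval ζ f - aeval ζ' f‖) := by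
  have h1 : ∀ ζ ∈ primitiveRoots N ℂ, ∑ ζ' ∈ primitiveRoots N ℂ,
      (if aeval ζ f = aeval ζ' f then (0 : ℝ) else Real.log ‖aeval ζ f - aeval ζ' f‖) =
      ∑ u ∈ U N, (if aeval ζ f = aeval (ζ ^ u) f then (0 : ℝ) else
        Real.log ‖aeval ζ f - aeval (ζ ^ u) f‖) := by
    intro ζ hζ
    rw [mem_primitiveRoots hN] at hζ
    rw [sum_primitive_eq hN hζ]
  rw [Finset.sum_congr rfl h1, Finset.sum_comm]
  apply Finset.sum_nonneg
  intro u _
  have hev : ∀ z : ℂ, aeval z (f - f.comp (X ^ u)) = aeval z f - aeval (z ^ u) f := by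
    intro z
    rw [map_sub, aeval_comp_pow]
  obtain ⟨ζ₀, hζ₀⟩ : ∃ ζ : ℂ, IsPrimitiveRoot ζ N := ⟨_, Complex.isPrimitiveRoot_exp N hN.ne'⟩
  by_cases h0 : aeval ζ₀ (f - f.comp (X ^ u)) = 0
  · apply le_of_eq
    symm
    apply Finset.sum_eq_zero
    intro ζ hζ
    have h2 := aeval_eq_zero_of_primitive hN hζ₀ (isPrimitiveRoot_of_mem_primitiveRoots hζ) h0
    rw [hev, sub_eq_zero] at h2
    rw [if_pos h2]
  · have hne : ∀ ζ ∈ primitiveRoots N ℂ, aeval ζ (f - f.comp (X ^ u)) ≠ 0 := fun ζ hζ =>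
      ne_zero_of_primitive hN hζ₀ (isPrimitiveRoot_of_mem_primitiveRoots hζ) h0
    have h3 : ∑ ζ ∈ primitiveRoots N ℂ, (if aeval ζ f = aeval (ζ ^ u) f then (0 : ℝ) else
        Real.log ‖aeval ζ f - aeval (ζ ^ u) f‖) =
        ∑ ζ ∈ primitiveRoots N ℂ, Real.log ‖aeval ζ (f - f.comp (X ^ u))‖ := by
      apply Finset.sum_congr rfl
      intro ζ hζ
      have h4 := hne ζ hζ
      rw [hev] at h4
      rw [if_neg (fun h => h4 (sub_eq_zero.mpr h)), hev]
    rw [h3, ← Real.log_prod (fun ζ hζ => norm_ne_zero_iff.mpr (hne ζ hζ))]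
    exact Real.log_nonneg (one_le_prod_norm hN hζ₀ h0)

/-- Second moment of the values of a cyclotomic integer all of whose conjugates are real and lie
in `[c - 2, c + 2]`. -/
lemma moment_values (ε : ℝ) (hε : 0 < ε) : ∃ M : ℕ, ∀ (N : ℕ) (f : ℤ[X]) (c : ℝ), 0 < N →
    (∀ z ∈ primitiveRoots N ℂ, (aeval z f).im = 0 ∧ |(aeval z f).re - c| ≤ 2) →
    M ≤ (V N f).card →
    |∑ z ∈ primitiveRoots N ℂ, (((aeval z f).re - c) ^ 2 - 2)| ≤
      ε * (primitiveRoots N ℂ).card := by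
  classical
  obtain ⟨δ, hδ, hmain⟩ := second_moment ε hε
  obtain ⟨M, hM⟩ := exists_nat_gt (1 / δ)
  refine ⟨M, ?_⟩
  intro N f c hN hf hV
  have hMpos : (0:ℝ) < M := lt_trans (by positivity) hM
  have key := hmain (primitiveRoots N ℂ) (fun z => (aeval (z : ℂ) f).re - c)
    (fun z => (hf z z.2).2)
  have heq : ∀ z ∈ primitiveRoots N ℂ, ∀ w ∈ primitiveRoots N ℂ,
      ((aeval z f).re - c = (aeval w f).re - c ↔ aeval z f = aeval w f) := by
    intro z hz w hw
    constructor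
    · intro h
      apply Complex.ext
      · linarith
      · rw [(hf z hz).1, (hf w hw).1]
    · intro h; rw [h]
  have hnorm : ∀ z ∈ primitiveRoots N ℂ, ∀ w ∈ primitiveRoots N ℂ,
      |((aeval z f).re - c) - ((aeval w f).re - c)| = ‖aeval z f - aeval w f‖ := by
    intro z hz w hw
    have : aeval z f - aeval w f = (((aeval z f).re - c) - ((aeval w f).re - c) : ℝ) := by
      apply Complex.ext
      · simp
      · simp [(hf z hz).1, (hf w hw).1]
    rw [this, Complex.norm_real, Real.norm_eq_abs]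
  have hsum1 : (∑ i : primitiveRoots N ℂ, ∑ j : primitiveRoots N ℂ,
      (if (aeval (i : ℂ) f).re - c = (aeval (j : ℂ) f).re - c then 0 else
        Real.log |((aeval (i : ℂ) f).re - c) - ((aeval (j : ℂ) f).re - c)|)) =
      ∑ ζ ∈ primitiveRoots N ℂ, ∑ ζ' ∈ primitiveRoots N ℂ,
      (if aeval ζ f = aeval ζ' f then (0 : ℝ) else Real.log ‖aeval ζ f - aeval ζ' f‖) := by
    rw [← Finset.sum_coe_sort (primitiveRoots N ℂ)]
    apply Finset.sum_congr rfl
    intro i _
    rw [← Finset.sum_coe_sort (primitiveRoots N ℂ)]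
    apply Finset.sum_congr rfl
    intro j _
    rw [hnorm i i.2 j j.2]
    by_cases h : aeval (i : ℂ) f = aeval (j : ℂ) f
    · rw [if_pos h, if_pos ((heq i i.2 j j.2).mpr h)]
    · rw [if_neg h, if_neg (fun h' => h ((heq i i.2 j j.2).mp h'))]
  have hsum2 : (∑ i : primitiveRoots N ℂ, ∑ j : primitiveRoots N ℂ,
      (if (aeval (i : ℂ) f).re - c = (aeval (j : ℂ) f).re - c then (1 : ℝ) else 0)) =
      ∑ ζ ∈ primitiveRoots N ℂ, ∑ ζ' ∈ primitiveRoots N ℂ,
      (if aeval ζ f = aeval ζ' f then (1 : ℝ) else 0) := by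
    rw [← Finset.sum_coe_sort (primitiveRoots N ℂ)]
    apply Finset.sum_congr rfl
    intro i _
    rw [← Finset.sum_coe_sort (primitiveRoots N ℂ)]
    apply Finset.sum_congr rfl
    intro j _
    by_cases h : aeval (i : ℂ) f = aeval (j : ℂ) f
    · rw [if_pos h, if_pos ((heq i i.2 j j.2).mpr h)]
    · rw [if_neg h, if_neg (fun h' => h ((heq i i.2 j j.2).mp h'))]
  have hcard : Fintype.card (primitiveRoots N ℂ) = (primitiveRoots N ℂ).card := by simp
  simp only [hcard] at key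
  have hfin := key (by rw [hsum1]; exact log_energy_nonneg hN f) (by
    rw [hsum2]
    have h1 := coincidences hN f
    set Cc := ∑ ζ ∈ primitiveRoots N ℂ, ∑ ζ' ∈ primitiveRoots N ℂ,
      (if aeval ζ f = aeval ζ' f then (1 : ℝ) else 0) with hCc
    have hC0 : 0 ≤ Cc := Finset.sum_nonneg fun _ _ => Finset.sum_nonneg fun _ _ => by
      split_ifs <;> norm_num
    have h2 : (M : ℝ) ≤ (V N f).card := by exact_mod_cast hV
    rw [← h1]
    have h3 : 1 ≤ δ * (V N f).card := by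
      have : 1 < δ * M := by
        rw [div_lt_iff₀ hδ] at hM
        linarith
      nlinarith
    nlinarith)
  rw [Finset.sum_coe_sort (primitiveRoots N ℂ) (fun z => ((aeval z f).re - c) ^ 2 - 2)] at hfin
  exact hfin

end Pool.Agent.Lib.MP_f0992b_nt
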