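import Mathlib
import Pool.Agent.Lib.MP_f0992b_nt.Values

set_option autoImplicit false

open Finset Polynomial

namespace Pool.Agent.Lib.MP_f0992b_nt

/-- The part of `f` with exponents congruent to `j` modulo `p`. -/
noncomputable def part (f : ℤ[X]) (p j : ℕ) : ℤ[X] :=
  ∑ r ∈ f.support, if r % p = j then monomial r (f.coeff r) else 0

lemma aeval_part (f : ℤ[X]) (p j : ℕ) (z : ℂ) :
    aeval z (part f p j) = ∑ r ∈ f.support, if r % p = j then (f.coeff r : ℂ) * z ^ r else 0 := by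
  unfold part
  rw [map_sum]
  apply Finset.sum_congr rfl
  intro r _
  split_ifs
  · rw [aeval_monomial]; simp
  · simp

lemma aeval_eq_sum_support (f : ℤ[X]) (z : ℂ) :
    aeval z f = ∑ r ∈ f.support, (f.coeff r : ℂ) * z ^ r := by
  rw [aeval_def, eval₂_eq_sum, Polynomial.sum]
  simp

lemma aeval_mul_part (f : ℤ[X]) (p j : ℕ) (z w : ℂ) (hw : w ^ p = 1) :
    aeval (z * w) (part f p j) = w ^ j * aeval z (part f p j) := by
  rw [aeval_part, aeval_part, Finset.mul_sum]
  apply Finset.sum_congr rfl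
  intro r _
  split_ifs with h
  · have h1 : w ^ r = w ^ j := by
      rw [← h]
      conv_lhs => rw [← Nat.div_add_mod r p]
      rw [pow_add, pow_mul, hw, one_pow, one_mul]
    rw [mul_pow, h1]; ring
  · simp

lemma aeval_eq_sum_part (f : ℤ[X]) {p : ℕ} (hp : 0 < p) (z : ℂ) :
    aeval z f = ∑ j ∈ Finset.range p, aeval z (part f p j) := by
  simp only [aeval_part]
  rw [Finset.sum_comm, aeval_eq_sum_support]
  apply Finset.sum_congr rfl
  intro r _
  rw [Finset.sum_ite_eq, if_pos (Finset.mem_range.mpr (Nat.mod_lt r hp))]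

lemma aeval_mul_eq (f : ℤ[X]) {p : ℕ} (hp : 0 < p) (z w : ℂ) (hw : w ^ p = 1) :
    aeval (z * w) f = ∑ j ∈ Finset.range p, w ^ j * aeval z (part f p j) := by
  rw [aeval_eq_sum_part f hp]
  apply Finset.sum_congr rfl
  intro j _
  exact aeval_mul_part f p j z w hw

/-- The part with exponents divisible by `p` is a polynomial in `X ^ p`. -/
lemma part_zero_eq (f : ℤ[X]) {p : ℕ} (hp : 0 < p) :
    ∃ g : ℤ[X], ∀ z : ℂ, aeval z (part f p 0) = aeval (z ^ p) g := by
  refine ⟨∑ r ∈ f.support, if r % p = 0 then monomial (r / p) (f.coeff r) else 0, ?_⟩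
  intro z
  rw [aeval_part, map_sum]
  apply Finset.sum_congr rfl
  intro r _
  split_ifs with h
  · rw [aeval_monomial, ← pow_mul, Nat.mul_div_cancel' (Nat.dvd_of_mod_eq_zero h)]; simp
  · simp

/-- orthogonality -/
lemma geom_zero {p : ℕ} {x : ℂ} (hx : x ^ p = 1) (hx1 : x ≠ 1) :
    ∑ s ∈ Finset.range p, x ^ s = 0 := by
  have h := mul_geom_sum x p
  rw [hx, sub_self] at h
  exact (mul_eq_zero.mp h).resolve_left (sub_ne_zero.mpr hx1)

lemma norm_sq_complex (z : ℂ) : ((‖z‖ ^ 2 : ℝ) : ℂ) = z * (starRingEnd ℂ) z := by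
  rw [Complex.mul_conj, Complex.normSq_eq_norm_sq]

/-- Parseval on `ℤ/p`. -/
lemma parseval {p : ℕ} (hp : 0 < p) {ω : ℂ} (hω : IsPrimitiveRoot ω p) (b : ℕ → ℂ) :
    ∑ s ∈ Finset.range p, ‖∑ j ∈ Finset.range p, (ω ^ s) ^ j * b j‖ ^ 2 =
      p * ∑ j ∈ Finset.range p, ‖b j‖ ^ 2 := by
  have hω0 : ω ≠ 0 := hω.ne_zero hp.ne'
  have hconj : (starRingEnd ℂ) ω = ω⁻¹ := by
    have h1 : ‖ω‖ = 1 := hω.norm'_eq_one hp.ne'
    rw [Complex.inv_def, Complex.normSq_eq_norm_sq, h1]
    simp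
  have key : ((∑ s ∈ Finset.range p, ‖∑ j ∈ Finset.range p, (ω ^ s) ^ j * b j‖ ^ 2 : ℝ) : ℂ) =
      ((p * ∑ j ∈ Finset.range p, ‖b j‖ ^ 2 : ℝ) : ℂ) := by
    push_cast
    have h1 : ∀ s ∈ Finset.range p,
        ((‖∑ j ∈ Finset.range p, (ω ^ s) ^ j * b j‖ : ℝ) : ℂ) ^ 2 =
        ∑ j ∈ Finset.range p, ∑ k ∈ Finset.range p,
          (b j * (starRingEnd ℂ) (b k)) * (ω ^ j * (ω ^ k)⁻¹) ^ s := by
      intro s _
      rw [← Complex.ofReal_pow, norm_sq_complex, map_sum, Finset.sum_mul_sum]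
      apply Finset.sum_congr rfl
      intro j _
      apply Finset.sum_congr rfl
      intro k _
      rw [map_mul, map_pow, map_pow, hconj, mul_pow, inv_pow, inv_pow, inv_pow, ← pow_mul,
        ← pow_mul, ← pow_mul, ← pow_mul, mul_comm j s, mul_comm k s]
      ring
    rw [Finset.sum_congr rfl h1, Finset.sum_comm, Finset.mul_sum]
    apply Finset.sum_congr rfl
    intro j hj
    rw [Finset.sum_comm]
    have h2 : ∀ k ∈ Finset.range p, ∑ s ∈ Finset.range p,
        (b j * (starRingEnd ℂ) (b k)) * (ω ^ j * (ω ^ k)⁻¹) ^ s =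
        if k = j then (p : ℂ) * (b j * (starRingEnd ℂ) (b k)) else 0 := by
      intro k hk
      rw [← Finset.mul_sum]
      split_ifs with h
      · rw [h, mul_inv_cancel₀ (pow_ne_zero _ hω0)]
        simp
        ring
      · rw [geom_zero, mul_zero]
        · rw [mul_pow, inv_pow, ← pow_mul, ← pow_mul, mul_comm j p, mul_comm k p, pow_mul, pow_mul,
            hω.pow_eq_one]
          simp
        · intro h3
          apply h
          rw [mul_inv_eq_one₀ (pow_ne_zero _ hω0)] at h3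
          exact (hω.pow_inj (Finset.mem_range.mp hj) (Finset.mem_range.mp hk) h3).symm
    rw [Finset.sum_congr rfl h2, Finset.sum_ite_eq' (Finset.range p) j, if_pos hj,
      ← norm_sq_complex]
    push_cast
    ring
  exact_mod_cast key

/-- Case `p² ∣ N`: orthogonal decomposition of the second moment. -/
lemma decomp_sq {N p : ℕ} (hN : 0 < N) (hp : p.Prime) (hpN : p ^ 2 ∣ N) (f : ℤ[X]) (c : ℂ) :
    ∑ z ∈ primitiveRoots N ℂ, ‖aeval z f - c‖ ^ 2 =
      ∑ z ∈ primitiveRoots N ℂ, ‖aeval z (part f p 0) - c‖ ^ 2 +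
      ∑ j ∈ (Finset.range p).erase 0, ∑ z ∈ primitiveRoots N ℂ, ‖aeval z (part f p j)‖ ^ 2 := by
  have hpd : p ∣ N := (dvd_pow_self p two_ne_zero).trans hpN
  have hp0 : 0 < p := hp.pos
  obtain ⟨m, hm⟩ := hpN
  have hNp : N / p = p * m := by
    rw [hm, sq, mul_assoc, Nat.mul_div_cancel_left _ hp0]
  have hcop : ∀ s : ℕ, (1 + s * (N / p)).Coprime N := by
    intro s
    rw [Nat.coprime_comm]
    apply Nat.Coprime.symm
    rw [Nat.coprime_iff_gcd_eq_one]
    by_contra hg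
    obtain ⟨q, hq, hq1⟩ := Nat.exists_prime_and_dvd hg
    have h1 : q ∣ 1 + s * (N / p) := hq1.trans (Nat.gcd_dvd_left _ _)
    have h2 : q ∣ N := hq1.trans (Nat.gcd_dvd_right _ _)
    have h3 : q ∣ N / p := by
      rw [hNp]
      rw [hm] at h2
      rcases (Nat.Prime.dvd_mul hq).mp h2 with h | h
      · exact Dvd.dvd.mul_right (hq.dvd_of_dvd_pow h) m
      · exact Dvd.dvd.mul_left h p
    have h4 : q ∣ 1 := by
      have h5 : q ∣ s * (N / p) := Dvd.dvd.mul_left h3 s
      exact (Nat.dvd_add_left h5).mp h1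
    exact hq.one_lt.ne' (Nat.dvd_one.mp h4)
  have h1 : ∀ z ∈ primitiveRoots N ℂ,
      ∑ s ∈ Finset.range p, ‖aeval (z ^ (1 + s * (N / p))) f - c‖ ^ 2 =
      p * (‖aeval z (part f p 0) - c‖ ^ 2 +
        ∑ j ∈ (Finset.range p).erase 0, ‖aeval z (part f p j)‖ ^ 2) := by
    intro z hz
    rw [mem_primitiveRoots hN] at hz
    set ω := z ^ (N / p) with hω
    have hωp : IsPrimitiveRoot ω p := by
      have := hz.pow_of_dvd (p := N / p) (by
        rw [Nat.div_ne_zero_iff]; exact ⟨hp0.ne', Nat.le_of_dvd hN hpd⟩) (Nat.div_dvd_of_dvd hpd)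
      rwa [Nat.div_div_self hpd hN.ne'] at this
    have h2 : ∀ s ∈ Finset.range p, ‖aeval (z ^ (1 + s * (N / p))) f - c‖ ^ 2 =
        ‖∑ j ∈ Finset.range p, (ω ^ s) ^ j *
          (if j = 0 then aeval z (part f p 0) - c else aeval z (part f p j))‖ ^ 2 := by
      intro s _
      congr 2
      have h3 : z ^ (1 + s * (N / p)) = z * ω ^ s := by
        rw [pow_add, pow_one, mul_comm s, pow_mul]
      have h4 : (ω ^ s) ^ p = 1 := by
        rw [← pow_mul, mul_comm, pow_mul, hωp.pow_eq_one, one_pow]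
      rw [h3, aeval_mul_eq f hp0 z (ω ^ s) h4]
      rw [← Finset.add_sum_erase _ _ (Finset.mem_range.mpr hp0),
        ← Finset.add_sum_erase _ (fun j => (ω ^ s) ^ j *
          (if j = 0 then aeval z (part f p 0) - c else aeval z (part f p j)))
          (Finset.mem_range.mpr hp0)]
      have h5 : ∑ j ∈ (Finset.range p).erase 0, (ω ^ s) ^ j *
          (if j = 0 then aeval z (part f p 0) - c else aeval z (part f p j)) =
          ∑ j ∈ (Finset.range p).erase 0, (ω ^ s) ^ j * aeval z (part f p j) := by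
        apply Finset.sum_congr rfl
        intro j hj
        rw [if_neg (Finset.ne_of_mem_erase hj)]
      rw [h5]
      simp
      ring
    rw [Finset.sum_congr rfl h2, parseval hp0 hωp]
    congr 1
    rw [← Finset.add_sum_erase _ _ (Finset.mem_range.mpr hp0)]
    congr 1
    apply Finset.sum_congr rfl
    intro j hj
    rw [if_neg (Finset.ne_of_mem_erase hj)]
  have h6 : ∑ z ∈ primitiveRoots N ℂ, ∑ s ∈ Finset.range p,
      ‖aeval (z ^ (1 + s * (N / p))) f - c‖ ^ 2 =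
      p * ∑ z ∈ primitiveRoots N ℂ, ‖aeval z f - c‖ ^ 2 := by
    rw [Finset.sum_comm]
    have h7 : ∀ s ∈ Finset.range p, ∑ z ∈ primitiveRoots N ℂ,
        ‖aeval (z ^ (1 + s * (N / p))) f - c‖ ^ 2 =
        ∑ z ∈ primitiveRoots N ℂ, ‖aeval z f - c‖ ^ 2 := fun s _ =>
      sum_primitive_pow hN (hcop s) (fun z => ‖aeval z f - c‖ ^ 2)
    rw [Finset.sum_congr rfl h7]
    simp
  rw [Finset.sum_congr rfl h1, ← Finset.mul_sum] at h6
  have hpne : (p : ℝ) ≠ 0 := by exact_mod_cast hp0.ne'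
  have h8 := mul_left_cancel₀ hpne h6
  rw [← h8, Finset.sum_add_distrib]
  congr 1
  rw [Finset.sum_comm]

end Pool.Agent.Lib.MP_f0992b_nt
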