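import Mathlib
import Pool.Agent.Lib.MP_f0992b_nt.Parts

set_option autoImplicit false

open Finset Polynomial

namespace Pool.Agent.Lib.MP_f0992b_nt

lemma eq_of_pow_eq {N u : ℕ} (hN : 0 < N) (hu : u.Coprime N) {a b : ℂ} (ha : a ^ N = 1)
    (hb : b ^ N = 1) (hab : a ^ u = b ^ u) : a = b := by
  have hcop : (u : ℤ).gcd N = 1 := by exact_mod_cast hu
  have hb' := Int.gcd_eq_gcd_ab u N
  rw [hcop] at hb'
  have key : ∀ z : ℂ, z ^ N = 1 → z = (z ^ u) ^ (Int.gcdA u N) := by
    intro z hz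
    have hz0 : z ≠ 0 := by
      rintro rfl
      rw [zero_pow hN.ne'] at hz
      exact zero_ne_one hz
    calc z = z ^ ((1 : ℕ) : ℤ) := by simp
      _ = z ^ ((u : ℤ) * Int.gcdA u N + (N : ℤ) * Int.gcdB u N) := by rw [← hb']
      _ = (z ^ u) ^ (Int.gcdA u N) := by
        rw [zpow_add₀ hz0, zpow_mul, zpow_mul, zpow_natCast, zpow_natCast, hz, one_zpow, mul_one]
  rw [key a ha, key b hb, hab]

/-- Primitive roots of order `p m` with `p`, `m` coprime. -/
lemma sum_primitive_mul {p m : ℕ} (hp : 0 < p) (hm : 0 < m) (hpm : p.Coprime m) (F : ℂ → ℝ) :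
    ∑ z ∈ primitiveRoots (p * m) ℂ, F z =
      ∑ η ∈ primitiveRoots m ℂ, ∑ ω ∈ primitiveRoots p ℂ, F (η * ω) := by
  have hprim : ∀ η ω : ℂ, IsPrimitiveRoot η m → IsPrimitiveRoot ω p →
      IsPrimitiveRoot (η * ω) (p * m) := by
    intro η ω hη hω
    have h1 : orderOf (η * ω) = orderOf η * orderOf ω := by
      apply (Commute.all η ω).orderOf_mul_eq_mul_orderOf_of_coprime
      rw [← hη.eq_orderOf, ← hω.eq_orderOf]
      exact hpm.symm
    rw [← hη.eq_orderOf, ← hω.eq_orderOf, mul_comm m p] at h1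
    rw [← h1]
    exact IsPrimitiveRoot.orderOf _
  rw [← Finset.sum_product']
  have hinj : Set.InjOn (fun x : ℂ × ℂ => x.1 * x.2)
      ((primitiveRoots m ℂ ×ˢ primitiveRoots p ℂ : Finset (ℂ × ℂ)) : Set (ℂ × ℂ)) := by
    rintro ⟨a, b⟩ hab ⟨a', b'⟩ hab' h
    rw [Finset.mem_coe, Finset.mem_product, mem_primitiveRoots hm, mem_primitiveRoots hp] at hab hab'
    simp only at hab hab' h
    have h1 : a ^ p = a' ^ p := by
      have := congrArg (fun x => x ^ p) h
      simp only [mul_pow, hab.2.pow_eq_one, hab'.2.pow_eq_one, mul_one] at this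
      exact this
    have h2 : a = a' := eq_of_pow_eq hm hpm hab.1.pow_eq_one hab'.1.pow_eq_one h1
    subst h2
    have h3 : b = b' := mul_left_cancel₀ (hab.1.ne_zero hm.ne') h
    rw [h3]
  have himg : (primitiveRoots m ℂ ×ˢ primitiveRoots p ℂ).image (fun x : ℂ × ℂ => x.1 * x.2) =
      primitiveRoots (p * m) ℂ := by
    apply Finset.eq_of_subset_of_card_le
    · intro z hz
      rw [Finset.mem_image] at hz
      obtain ⟨⟨a, b⟩, hab, rfl⟩ := hz
      rw [Finset.mem_product, mem_primitiveRoots hm, mem_primitiveRoots hp] at hab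
      rw [mem_primitiveRoots (Nat.mul_pos hp hm)]
      exact hprim a b hab.1 hab.2
    · rw [Finset.card_image_of_injOn hinj, Finset.card_product, Complex.card_primitiveRoots,
        Complex.card_primitiveRoots, Complex.card_primitiveRoots, Nat.totient_mul hpm, mul_comm]
  rw [← himg, Finset.sum_image hinj]

lemma sum_pairs (p : ℕ) (a : ℕ → ℂ) :
    ∑ i ∈ Finset.range p, ∑ j ∈ Finset.range p, ‖a i - a j‖ ^ 2 =
      2 * (p * ∑ j ∈ Finset.range p, ‖a j‖ ^ 2) - 2 * ‖∑ j ∈ Finset.range p, a j‖ ^ 2 := by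
  have key : ((∑ i ∈ Finset.range p, ∑ j ∈ Finset.range p, ‖a i - a j‖ ^ 2 : ℝ) : ℂ) =
      ((2 * (p * ∑ j ∈ Finset.range p, ‖a j‖ ^ 2) - 2 * ‖∑ j ∈ Finset.range p, a j‖ ^ 2 : ℝ) : ℂ) := by
    push_cast
    have h1 : ∀ i j : ℕ, ((‖a i - a j‖ : ℝ) : ℂ) ^ 2 =
        ((‖a i‖ : ℝ) : ℂ) ^ 2 + ((‖a j‖ : ℝ) : ℂ) ^ 2 - a i * (starRingEnd ℂ) (a j) -
          a j * (starRingEnd ℂ) (a i) := by
      intro i j
      rw [← Complex.ofReal_pow, ← Complex.ofReal_pow, ← Complex.ofReal_pow, norm_sq_complex,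
        norm_sq_complex, norm_sq_complex, map_sub]
      ring
    simp only [h1]
    rw [← Complex.ofReal_pow ‖∑ j ∈ Finset.range p, a j‖, norm_sq_complex, map_sum]
    simp only [Finset.sum_sub_distrib, Finset.sum_add_distrib, Finset.sum_const, Finset.card_range,
      nsmul_eq_mul, ← Finset.mul_sum, ← Finset.sum_mul]
    ring
  exact_mod_cast key

/-- Parseval over the primitive `p`-th roots of unity, `p` prime. -/
lemma parseval_primitive {p : ℕ} (hp : p.Prime) (a : ℕ → ℂ) :
    2 * ∑ ω ∈ primitiveRoots p ℂ, ‖∑ j ∈ Finset.range p, ω ^ j * a j‖ ^ 2 =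
      ∑ i ∈ Finset.range p, ∑ j ∈ Finset.range p, ‖a i - a j‖ ^ 2 := by
  obtain ⟨ω₀, hω₀⟩ : ∃ ζ : ℂ, IsPrimitiveRoot ζ p := ⟨_, Complex.isPrimitiveRoot_exp p hp.ne_zero⟩
  rw [sum_primitive_eq hp.pos hω₀, sum_pairs, ← parseval hp.pos hω₀ a]
  have hU : U p = (Finset.range p).erase 0 := by
    ext u
    rw [mem_U, Finset.mem_erase, Finset.mem_range]
    constructor
    · rintro ⟨h1, h2⟩
      refine ⟨?_, h1⟩
      rintro rfl
      rw [Nat.coprime_zero_left] at h2
      exact hp.one_lt.ne' h2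
    · rintro ⟨h1, h2⟩
      refine ⟨h2, ?_⟩
      exact (Nat.coprime_of_lt_prime h1 h2 hp).symm
  rw [hU, ← Finset.add_sum_erase _ _ (Finset.mem_range.mpr hp.pos)]
  simp
  ring

/-- Number of ordered pairs with different values. -/
lemma pairs_bound (S : Finset ℕ) (v : ℕ → ℂ) [DecidableEq ℂ]
    (h : ∀ t, 2 ≤ (S.filter (fun i => v i ≠ t)).card) :
    4 * ((S.card : ℝ) - 2) ≤ ∑ i ∈ S, ∑ j ∈ S, if v i = v j then (0 : ℝ) else 1 := by
  by_cases hinj : ∀ i ∈ S, ∀ j ∈ S, v i = v j → i = j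
  · have h1 : ∀ i ∈ S, ∑ j ∈ S, (if v i = v j then (0 : ℝ) else 1) = (S.card : ℝ) - 1 := by
      intro i hi
      have h2 : ∀ j ∈ S, (if v i = v j then (0 : ℝ) else 1) = 1 - (if i = j then 1 else 0) := by
        intro j hj
        by_cases hij : i = j
        · subst hij; simp
        · rw [if_neg (fun h' => hij (hinj i hi j hj h')), if_neg hij]; ring
      rw [Finset.sum_congr rfl h2, Finset.sum_sub_distrib, Finset.sum_ite_eq, if_pos hi]
      simp
    rw [Finset.sum_congr rfl h1, Finset.sum_const, nsmul_eq_mul]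
    nlinarith [sq_nonneg ((S.card : ℝ) - 5 / 2)]
  · push Not at hinj
    obtain ⟨i₀, hi₀, j₀, hj₀, hv, hne⟩ := hinj
    set A := S.filter (fun i => v i = v i₀) with hA
    set B := S.filter (fun i => ¬ v i = v i₀) with hB
    have hcard : A.card + B.card = S.card := Finset.card_filter_add_card_filter_not _
    have hA2 : 2 ≤ A.card := by
      have : ({i₀, j₀} : Finset ℕ) ⊆ A := by
        intro x hx
        rw [Finset.mem_insert, Finset.mem_singleton] at hx
        rw [hA, Finset.mem_filter]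
        rcases hx with rfl | rfl
        · exact ⟨hi₀, rfl⟩
        · exact ⟨hj₀, hv.symm⟩
      have h2 := Finset.card_le_card this
      rwa [Finset.card_pair hne] at h2
    have hB2 : 2 ≤ B.card := h (v i₀)
    have hsub : ∀ i, 0 ≤ ∑ j ∈ S, (if v i = v j then (0 : ℝ) else 1) := fun i =>
      Finset.sum_nonneg fun j _ => by split_ifs <;> norm_num
    have hsplit : ∑ i ∈ S, ∑ j ∈ S, (if v i = v j then (0 : ℝ) else 1) =
        ∑ i ∈ A, ∑ j ∈ S, (if v i = v j then (0 : ℝ) else 1) +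
        ∑ i ∈ B, ∑ j ∈ S, (if v i = v j then (0 : ℝ) else 1) :=
      (Finset.sum_filter_add_sum_filter_not S (fun i => v i = v i₀) _).symm
    have h3 : (A.card : ℝ) * B.card ≤ ∑ i ∈ A, ∑ j ∈ S, (if v i = v j then (0 : ℝ) else 1) := by
      have h4 : ∀ i ∈ A, (B.card : ℝ) ≤ ∑ j ∈ S, (if v i = v j then (0 : ℝ) else 1) := by
        intro i hi
        have hi' := (Finset.mem_filter.mp hi).2
        calc (B.card : ℝ) = ∑ j ∈ B, (1 : ℝ) := by simp
          _ = ∑ j ∈ B, (if v i = v j then (0 : ℝ) else 1) := by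
              apply Finset.sum_congr rfl
              intro j hj
              have hj' := (Finset.mem_filter.mp hj).2
              rw [if_neg]
              intro h5
              exact hj' (by rw [← h5, hi'])
          _ ≤ _ := Finset.sum_le_sum_of_subset_of_nonneg (Finset.filter_subset _ _)
              (fun j _ _ => by split_ifs <;> norm_num)
      calc (A.card : ℝ) * B.card = ∑ i ∈ A, (B.card : ℝ) := by simp
        _ ≤ _ := Finset.sum_le_sum h4
    have h3' : (B.card : ℝ) * A.card ≤ ∑ i ∈ B, ∑ j ∈ S, (if v i = v j then (0 : ℝ) else 1) := by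
      have h4 : ∀ i ∈ B, (A.card : ℝ) ≤ ∑ j ∈ S, (if v i = v j then (0 : ℝ) else 1) := by
        intro i hi
        have hi' := (Finset.mem_filter.mp hi).2
        calc (A.card : ℝ) = ∑ j ∈ A, (1 : ℝ) := by simp
          _ = ∑ j ∈ A, (if v i = v j then (0 : ℝ) else 1) := by
              apply Finset.sum_congr rfl
              intro j hj
              have hj' := (Finset.mem_filter.mp hj).2
              rw [if_neg]
              intro h5
              exact hi' (by rw [h5, hj'])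
          _ ≤ _ := Finset.sum_le_sum_of_subset_of_nonneg (Finset.filter_subset _ _)
              (fun j _ _ => by split_ifs <;> norm_num)
      calc (B.card : ℝ) * A.card = ∑ i ∈ B, (A.card : ℝ) := by simp
        _ ≤ _ := Finset.sum_le_sum h4
    rw [hsplit]
    have hA2' : (2 : ℝ) ≤ A.card := by exact_mod_cast hA2
    have hB2' : (2 : ℝ) ≤ B.card := by exact_mod_cast hB2
    have hcard' : (A.card : ℝ) + B.card = S.card := by exact_mod_cast hcard
    rw [← hcard']
    nlinarith [mul_nonneg (sub_nonneg.mpr hA2') (sub_nonneg.mpr hB2')]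

/-- Case `N = p m`, `p` a prime not dividing `m`. -/
lemma decomp_coprime {p m : ℕ} (hp : p.Prime) (hm : 0 < m) (hpm : p.Coprime m) (f : ℤ[X])
    (c : ℂ) :
    2 * ∑ z ∈ primitiveRoots (p * m) ℂ, ‖aeval z f - c‖ ^ 2 =
      ∑ i ∈ Finset.range p, ∑ j ∈ Finset.range p, ∑ η ∈ primitiveRoots m ℂ,
        ‖(aeval η (part f p i) - if i = 0 then c else 0) -
          (aeval η (part f p j) - if j = 0 then c else 0)‖ ^ 2 := by
  rw [sum_primitive_mul hp.pos hm hpm, Finset.mul_sum]
  have h1 : ∀ η ∈ primitiveRoots m ℂ,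
      2 * ∑ ω ∈ primitiveRoots p ℂ, ‖aeval (η * ω) f - c‖ ^ 2 =
      ∑ i ∈ Finset.range p, ∑ j ∈ Finset.range p,
        ‖(aeval η (part f p i) - if i = 0 then c else 0) -
          (aeval η (part f p j) - if j = 0 then c else 0)‖ ^ 2 := by
    intro η _
    rw [← parseval_primitive hp (fun j => aeval η (part f p j) - if j = 0 then c else 0)]
    congr 1
    apply Finset.sum_congr rfl
    intro ω hω
    rw [mem_primitiveRoots hp.pos] at hω
    rw [aeval_mul_eq f hp.pos η ω hω.pow_eq_one]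
    congr 2
    simp only [mul_sub, Finset.sum_sub_distrib]
    congr 1
    simp [hp.pos]
  rw [Finset.sum_congr rfl h1, Finset.sum_comm]
  apply Finset.sum_congr rfl
  intro i _
  rw [Finset.sum_comm]

end Pool.Agent.Lib.MP_f0992b_nt
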