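import Mathlib
import Pool.Agent.Lib.MP_f0992b_nt.Coprime

set_option autoImplicit false

open Finset Polynomial

namespace Pool.Agent.Lib.MP_f0992b_nt

/-- All values of `f` at the primitive `N`-th roots of unity are real and lie in
`[c - 2, c + 2]`. -/
def Good (N : ℕ) (f : ℤ[X]) (c : ℝ) : Prop :=
  ∀ z ∈ primitiveRoots N ℂ, (aeval z f).im = 0 ∧ |(aeval z f).re - c| ≤ 2

lemma pow_one_add {N p s : ℕ} (z : ℂ) : z ^ (1 + s * (N / p)) = z * (z ^ (N / p)) ^ s := by
  rw [pow_add, pow_one, mul_comm s, pow_mul]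

lemma coprime_one_add {N p : ℕ} (hp : p.Prime) (hpN : p ^ 2 ∣ N) (s : ℕ) :
    (1 + s * (N / p)).Coprime N := by
  have hp0 : 0 < p := hp.pos
  obtain ⟨m, hm⟩ := hpN
  have hNp : N / p = p * m := by
    rw [hm, sq, mul_assoc, Nat.mul_div_cancel_left _ hp0]
  rw [Nat.coprime_iff_gcd_eq_one]
  by_contra hg
  obtain ⟨q, hq, hq1⟩ := Nat.exists_prime_and_dvd hg
  have h1 : q ∣ 1 + s * (N / p) := hq1.trans (Nat.gcd_dvd_left _ _)
  have h2 : q ∣ N := hq1.trans (Nat.gcd_dvd_right _ _)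
  have h3 : q ∣ N / p := by
    rw [hNp]
    rw [hm] at h2
    rcases (Nat.Prime.dvd_mul hq).mp h2 with h | h
    · exact Dvd.dvd.mul_right (hq.dvd_of_dvd_pow h) m
    · exact Dvd.dvd.mul_left h p
  have h4 : q ∣ 1 := by
    have h5 : q ∣ s * (N / p) := Dvd.dvd.mul_left h3 s
    exact (Nat.dvd_add_left h5).mp h1
  exact hq.one_lt.ne' (Nat.dvd_one.mp h4)

lemma coprime_of_coprime_div {N p u : ℕ} (hp : p.Prime) (hpN : p ^ 2 ∣ N)
    (hu : u.Coprime (N / p)) : u.Coprime N := by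
  have hp0 : 0 < p := hp.pos
  obtain ⟨m, hm⟩ := hpN
  have hNp : N / p = p * m := by
    rw [hm, sq, mul_assoc, Nat.mul_div_cancel_left _ hp0]
  rw [hNp] at hu
  rw [hm, sq, mul_assoc]
  exact Nat.Coprime.mul_right (Nat.Coprime.coprime_mul_right_right hu) hu

lemma primitive_root_p {N p : ℕ} (hN : 0 < N) (hp : p.Prime) (hpd : p ∣ N) {z : ℂ}
    (hz : IsPrimitiveRoot z N) : IsPrimitiveRoot (z ^ (N / p)) p := by
  have := hz.pow_of_dvd (p := N / p) (by
    rw [Nat.div_ne_zero_iff]; exact ⟨hp.pos.ne', Nat.le_of_dvd hN hpd⟩) (Nat.div_dvd_of_dvd hpd)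
  rwa [Nat.div_div_self hpd hN.ne'] at this

/-- Discrete Fourier inversion. -/
lemma dft {p j : ℕ} {ω : ℂ} (hω : IsPrimitiveRoot ω p) (hj0 : 0 < j) (hj : j < p)
    (f : ℤ[X]) (z : ℂ) :
    ∑ s ∈ Finset.range p, (ω ^ s) ^ j * aeval (z * ω ^ s) f = p * aeval z (part f p (p - j)) := by
  have hp : 0 < p := by omega
  have h1 : ∀ s ∈ Finset.range p, (ω ^ s) ^ j * aeval (z * ω ^ s) f =
      ∑ k ∈ Finset.range p, (ω ^ (j + k)) ^ s * aeval z (part f p k) := by
    intro s _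
    have h4 : (ω ^ s) ^ p = 1 := by
      rw [← pow_mul, mul_comm, pow_mul, hω.pow_eq_one, one_pow]
    rw [aeval_mul_eq f hp z (ω ^ s) h4, Finset.mul_sum]
    apply Finset.sum_congr rfl
    intro k _
    rw [← mul_assoc, ← pow_add, ← pow_mul, ← pow_mul, mul_comm s]
  rw [Finset.sum_congr rfl h1, Finset.sum_comm]
  have h2 : ∀ k ∈ Finset.range p, ∑ s ∈ Finset.range p, (ω ^ (j + k)) ^ s * aeval z (part f p k) =
      if k = p - j then (p : ℂ) * aeval z (part f p (p - j)) else 0 := by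
    intro k hk
    rw [Finset.mem_range] at hk
    rw [← Finset.sum_mul]
    split_ifs with h
    · have h5 : j + k = p := by omega
      rw [h5, hω.pow_eq_one, ← h]
      simp
    · rw [geom_zero, zero_mul]
      · rw [← pow_mul, mul_comm, pow_mul, hω.pow_eq_one, one_pow]
      · intro h6
        have h7 := (hω.pow_eq_one_iff_dvd (j + k)).mp h6
        obtain ⟨q, hq⟩ := h7
        have h8 : q = 1 := by
          rcases Nat.lt_or_ge q 1 with h9 | h9
          · interval_cases q; omega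
          · by_contra h10
            have : 2 ≤ q := by omega
            have : p * 2 ≤ p * q := Nat.mul_le_mul_left p this
            omega
        subst h8
        omega
  rw [Finset.sum_congr rfl h2, Finset.sum_ite_eq' (Finset.range p), if_pos]
  rw [Finset.mem_range]; omega

lemma conj_part {N p j : ℕ} (hN : 0 < N) (hp : p.Prime) (hpN : p ^ 2 ∣ N) {f : ℤ[X]} {c : ℝ}
    (hf : Good N f c) {z : ℂ} (hz : IsPrimitiveRoot z N) (hj0 : 0 < j) (hj : j < p) :
    (starRingEnd ℂ) (aeval z (part f p (p - j))) = aeval z (part f p j) := by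
  have hpd : p ∣ N := (dvd_pow_self p two_ne_zero).trans hpN
  set ω := z ^ (N / p) with hω
  have hωp : IsPrimitiveRoot ω p := primitive_root_p hN hp hpd hz
  have h1 := dft hωp hj0 hj f z
  have h2 := dft hωp (j := p - j) (by omega) (by omega) f z
  have h3 : p - (p - j) = j := by omega
  rw [h3] at h2
  have hconj : (starRingEnd ℂ) ω = ω⁻¹ := by
    have h1 : ‖ω‖ = 1 := hωp.norm'_eq_one hp.ne_zero
    rw [Complex.inv_def, Complex.normSq_eq_norm_sq, h1]
    simp
  have hω0 : ω ≠ 0 := hωp.ne_zero hp.ne_zero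
  have h4 : (starRingEnd ℂ) (∑ s ∈ Finset.range p, (ω ^ s) ^ j * aeval (z * ω ^ s) f) =
      ∑ s ∈ Finset.range p, (ω ^ s) ^ (p - j) * aeval (z * ω ^ s) f := by
    rw [map_sum]
    apply Finset.sum_congr rfl
    intro s _
    have h5 : (starRingEnd ℂ) (aeval (z * ω ^ s) f) = aeval (z * ω ^ s) f := by
      rw [Complex.conj_eq_iff_im]
      have h6 : z * ω ^ s = z ^ (1 + s * (N / p)) := (pow_one_add z).symm
      rw [h6]
      apply (hf _ _).1
      rw [mem_primitiveRoots hN]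
      exact hz.pow_of_coprime _ (coprime_one_add hp hpN s)
    rw [map_mul, h5, map_pow, map_pow, hconj]
    congr 1
    have h7 : (ω ^ s) ^ (p - j) * (ω ^ s) ^ j = 1 := by
      rw [← pow_add, Nat.sub_add_cancel hj.le, ← pow_mul, mul_comm, pow_mul, hωp.pow_eq_one,
        one_pow]
    rw [inv_pow, inv_pow]
    exact (eq_inv_of_mul_eq_one_left h7).symm
  rw [h1, h2, map_mul] at h4
  have h8 : (starRingEnd ℂ) (p : ℂ) = p := Complex.conj_natCast p
  rw [h8] at h4
  have hpne : (p : ℂ) ≠ 0 := by exact_mod_cast hp.ne_zero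
  exact mul_left_cancel₀ hpne h4

/-- Case of an odd prime `p` with `p² ∣ N`. -/
lemma case_odd {N p : ℕ} (hN : 0 < N) (hp : p.Prime) (hp2 : p ≠ 2) (hpN : p ^ 2 ∣ N)
    {f : ℤ[X]} {c : ℝ} (hf : Good N f c) {ζ₀ : ℂ} (hζ₀ : IsPrimitiveRoot ζ₀ N)
    (hne : ∃ j ∈ (Finset.range p).erase 0, aeval ζ₀ (part f p j) ≠ 0) :
    ((primitiveRoots N ℂ).card : ℝ) * (2 + (c - round c) ^ 2) ≤
      ∑ z ∈ primitiveRoots N ℂ, ‖aeval z f - (c : ℂ)‖ ^ 2 := by
  obtain ⟨j, hj, hj1⟩ := hne
  rw [Finset.mem_erase, Finset.mem_range] at hj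
  have hj0 : 0 < j := Nat.pos_of_ne_zero hj.1
  rw [decomp_sq hN hp hpN]
  have h1 := dist_bound hN c (part f p 0)
  have h2 := card_le_sum_norm_sq hN hζ₀ hj1
  have hj2 : aeval ζ₀ (part f p (p - j)) ≠ 0 := by
    intro h0
    have h3 := conj_part hN hp hpN hf hζ₀ hj0 hj.2
    rw [h0, map_zero] at h3
    exact hj1 h3.symm
  have h3 := card_le_sum_norm_sq hN hζ₀ hj2
  have hodd : j ≠ p - j := by
    intro h
    have h4 : p = 2 * j := by omega
    have h5 := (Nat.prime_mul_iff.mp (h4 ▸ hp))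
    rcases h5 with h5 | h5
    · exact hp2 (by rw [h4, h5.2])
    · omega
  have hsub : ({j, p - j} : Finset ℕ) ⊆ (Finset.range p).erase 0 := by
    intro x hx
    rw [Finset.mem_insert, Finset.mem_singleton] at hx
    rw [Finset.mem_erase, Finset.mem_range]
    omega
  have h4 := Finset.sum_le_sum_of_subset_of_nonneg (f := fun j =>
    ∑ z ∈ primitiveRoots N ℂ, ‖aeval z (part f p j)‖ ^ 2) hsub
    (fun _ _ _ => Finset.sum_nonneg fun _ _ => by positivity)
  rw [Finset.sum_pair hodd] at h4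
  linarith

/-- Degenerate situation when `p² ∣ N`: descent to level `N / p`. -/
lemma descend_sq {N p : ℕ} (hN : 0 < N) (hp : p.Prime) (hpN : p ^ 2 ∣ N)
    {f : ℤ[X]} {c : ℝ} (hf : Good N f c) {ζ₀ : ℂ} (hζ₀ : IsPrimitiveRoot ζ₀ N)
    (hne : ∀ j ∈ (Finset.range p).erase 0, aeval ζ₀ (part f p j) = 0) :
    ∃ g : ℤ[X], Good (N / p) g c ∧ V N f ⊆ V (N / p) g := by
  classical
  have hpd : p ∣ N := (dvd_pow_self p two_ne_zero).trans hpN
  have hNp : 0 < N / p := Nat.div_pos (Nat.le_of_dvd hN hpd) hp.pos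
  obtain ⟨g, hg⟩ := part_zero_eq f hp.pos
  have hfg : ∀ z : ℂ, IsPrimitiveRoot z N → aeval z f = aeval (z ^ p) g := by
    intro z hz
    rw [aeval_eq_sum_part f hp.pos, ← Finset.add_sum_erase _ _ (Finset.mem_range.mpr hp.pos),
      Finset.sum_eq_zero, add_zero, hg]
    intro j hj
    exact aeval_eq_zero_of_primitive hN hζ₀ hz (hne j hj)
  have hpow : ∀ z : ℂ, IsPrimitiveRoot z N → IsPrimitiveRoot (z ^ p) (N / p) := fun z hz =>
    hz.pow_of_dvd hp.ne_zero hpd
  refine ⟨g, ?_, ?_⟩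
  · intro η hη
    rw [mem_primitiveRoots hNp] at hη
    have : NeZero (N / p) := ⟨hNp.ne'⟩
    obtain ⟨u, _, hu, hu'⟩ := (hpow ζ₀ hζ₀).isPrimitiveRoot_iff.mp hη
    have hz : IsPrimitiveRoot (ζ₀ ^ u) N :=
      hζ₀.pow_of_coprime u (coprime_of_coprime_div hp hpN hu)
    have h1 := hf (ζ₀ ^ u) (by rw [mem_primitiveRoots hN]; exact hz)
    rw [hfg _ hz, ← pow_mul, mul_comm, pow_mul, hu'] at h1
    exact h1
  · intro v hv
    unfold V at hv ⊢
    rw [Finset.mem_image] at hv ⊢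
    obtain ⟨z, hz, rfl⟩ := hv
    rw [mem_primitiveRoots hN] at hz
    exact ⟨z ^ p, by rw [mem_primitiveRoots hNp]; exact hpow z hz, (hfg z hz).symm⟩

/-- Relation between the norm form and the real form of the second moment. -/
lemma norm_sq_eq {N : ℕ} {f : ℤ[X]} {c : ℝ} {z : ℂ} (hf : Good N f c)
    (hz : z ∈ primitiveRoots N ℂ) :
    ‖aeval z f - (c : ℂ)‖ ^ 2 = ((aeval z f).re - c) ^ 2 := by
  have : aeval z f - (c : ℂ) = (((aeval z f).re - c : ℝ) : ℂ) := by
    apply Complex.ext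
    · simp
    · simp [(hf z hz).1]
  rw [this, Complex.norm_real, Real.norm_eq_abs, sq_abs]

/-- Case `4 ∣ N`: the even and odd parts are good. -/
lemma good_parts {N : ℕ} (hN : 0 < N) (h4 : 2 ^ 2 ∣ N) {f : ℤ[X]} {c : ℝ} (hf : Good N f c) :
    Good N (part f 2 0) c ∧ Good N (part f 2 1) 0 := by
  have key : ∀ z ∈ primitiveRoots N ℂ, aeval z f = aeval z (part f 2 0) + aeval z (part f 2 1) ∧
      aeval (-z) f = aeval z (part f 2 0) - aeval z (part f 2 1) ∧
      -z ∈ primitiveRoots N ℂ := by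
    intro z hz
    have h1 := aeval_mul_eq f (p := 2) (by norm_num) z (-1) (by norm_num)
    have h2 := aeval_mul_eq f (p := 2) (by norm_num) z 1 (by norm_num)
    simp only [Finset.sum_range_succ, Finset.range_zero, Finset.sum_empty, pow_zero, pow_one,
      one_mul, zero_add, mul_one, mul_neg, neg_mul] at h1 h2
    refine ⟨h2, by rw [h1]; ring, ?_⟩
    rw [mem_primitiveRoots hN] at hz ⊢
    have h3 := hz.pow_of_coprime _ (coprime_one_add Nat.prime_two h4 1)
    rw [pow_one_add, pow_one] at h3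
    have h5 : IsPrimitiveRoot (z ^ (N / 2)) 2 :=
      primitive_root_p hN Nat.prime_two ((dvd_pow_self 2 two_ne_zero).trans h4) hz
    have h6 : z ^ (N / 2) = -1 := h5.eq_neg_one_of_two_right
    rw [h6, mul_neg, mul_one] at h3
    exact h3
  constructor
  · intro z hz
    obtain ⟨h1, h2, h3⟩ := key z hz
    have h5 := hf z hz
    have h6 := hf (-z) h3
    rw [h1] at h5
    rw [h2] at h6
    simp only [Complex.add_im, Complex.add_re, Complex.sub_im, Complex.sub_re] at h5 h6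
    refine ⟨by linarith [h5.1, h6.1], ?_⟩
    have h7 := abs_le.mp h5.2
    have h8 := abs_le.mp h6.2
    rw [abs_le]
    constructor <;> linarith [h7.1, h7.2, h8.1, h8.2]
  · intro z hz
    obtain ⟨h1, h2, h3⟩ := key z hz
    have h5 := hf z hz
    have h6 := hf (-z) h3
    rw [h1] at h5
    rw [h2] at h6
    simp only [Complex.add_im, Complex.add_re, Complex.sub_im, Complex.sub_re] at h5 h6
    refine ⟨by linarith [h5.1, h6.1], ?_⟩
    have h7 := abs_le.mp h5.2
    have h8 := abs_le.mp h6.2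
    rw [abs_le]
    constructor <;> linarith [h7.1, h7.2, h8.1, h8.2]

end Pool.Agent.Lib.MP_f0992b_nt
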