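import Mathlib
import Pool.Agent.Lib.MP_f0992b_nt.Cases

set_option autoImplicit false

open Finset Polynomial

namespace Pool.Agent.Lib.MP_f0992b_nt

lemma primitive_mul {p m : ℕ} (hpm : p.Coprime m) {η ω : ℂ} (hη : IsPrimitiveRoot η m)
    (hω : IsPrimitiveRoot ω p) : IsPrimitiveRoot (η * ω) (p * m) := by
  have h1 : orderOf (η * ω) = orderOf η * orderOf ω := by
    apply (Commute.all η ω).orderOf_mul_eq_mul_orderOf_of_coprime
    rw [← hη.eq_orderOf, ← hω.eq_orderOf]
    exact hpm.symm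
  rw [← hη.eq_orderOf, ← hω.eq_orderOf, mul_comm m p] at h1
  rw [← h1]
  exact IsPrimitiveRoot.orderOf _

lemma exists_factor {p m : ℕ} (hp : 0 < p) (hm : 0 < m) (hpm : p.Coprime m) {z : ℂ}
    (hz : IsPrimitiveRoot z (p * m)) :
    ∃ η ω : ℂ, IsPrimitiveRoot η m ∧ IsPrimitiveRoot ω p ∧ z = η * ω := by
  obtain ⟨ω₀, hω₀⟩ : ∃ ζ : ℂ, IsPrimitiveRoot ζ p := ⟨_, Complex.isPrimitiveRoot_exp p hp.ne'⟩
  obtain ⟨η₀, hη₀⟩ : ∃ ζ : ℂ, IsPrimitiveRoot ζ m := ⟨_, Complex.isPrimitiveRoot_exp m hm.ne'⟩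
  have h0 := primitive_mul hpm hη₀ hω₀
  have : NeZero (p * m) := ⟨(Nat.mul_pos hp hm).ne'⟩
  obtain ⟨u, _, hu, hu'⟩ := h0.isPrimitiveRoot_iff.mp hz
  refine ⟨η₀ ^ u, ω₀ ^ u, ?_, ?_, ?_⟩
  · exact hη₀.pow_of_coprime u (Nat.Coprime.coprime_mul_left_right hu)
  · exact hω₀.pow_of_coprime u (Nat.Coprime.coprime_mul_right_right hu)
  · rw [← hu', mul_pow]

lemma aeval_factor (f : ℤ[X]) {p : ℕ} (hp : 0 < p) {η ω : ℂ} (hω : ω ^ p = 1) :
    aeval (η * ω) f = aeval η (part f p 0) +
      ∑ j ∈ (Finset.range p).erase 0, ω ^ j * aeval η (part f p j) := by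
  rw [aeval_mul_eq f hp η ω hω, ← Finset.add_sum_erase _ _ (Finset.mem_range.mpr hp)]
  simp

lemma sum_erase_pow {p : ℕ} (hp : 1 < p) {ω : ℂ} (hω : IsPrimitiveRoot ω p) :
    ∑ j ∈ (Finset.range p).erase 0, ω ^ j = -1 := by
  have h := geom_zero hω.pow_eq_one (hω.ne_one hp)
  rw [← Finset.add_sum_erase _ _ (Finset.mem_range.mpr (by omega : 0 < p))] at h
  simp only [pow_zero] at h
  exact eq_neg_of_add_eq_zero_right h

/-- Case `N = p m` with `p` coprime to `m`. -/
lemma case_coprime {p m : ℕ} (hp : p.Prime) (hp5 : 5 ≤ p) (hm : 0 < m) (hpm : p.Coprime m)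
    {f : ℤ[X]} {c : ℝ} (hf : Good (p * m) f c) :
    (∃ g : ℤ[X], Good m g c ∧ V (p * m) f ⊆ V m g) ∨
    ((primitiveRoots (p * m) ℂ).card : ℝ) * (2 - 4 / ((p : ℝ) - 1) + (c - round c) ^ 2) ≤
      ∑ z ∈ primitiveRoots (p * m) ℂ, ‖aeval z f - (c : ℂ)‖ ^ 2 := by
  classical
  obtain ⟨η₀, hη₀⟩ : ∃ ζ : ℂ, IsPrimitiveRoot ζ m := ⟨_, Complex.isPrimitiveRoot_exp m hm.ne'⟩
  obtain ⟨ω₀, hω₀⟩ : ∃ ζ : ℂ, IsPrimitiveRoot ζ p := ⟨_, Complex.isPrimitiveRoot_exp p hp.ne_zero⟩
  set S : Finset ℕ := (Finset.range p).erase 0 with hS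
  have hScard : S.card = p - 1 := by
    rw [hS, Finset.card_erase_of_mem (Finset.mem_range.mpr hp.pos), Finset.card_range]
  have hp1 : (0 : ℝ) < (p : ℝ) - 1 := by
    have : (5 : ℝ) ≤ p := by exact_mod_cast hp5
    linarith
  set v : ℕ → ℂ := fun j => aeval η₀ (part f p j) with hv
  by_cases h : ∀ t, 2 ≤ (S.filter (fun i => v i ≠ t)).card
  · right
    have hdec := decomp_coprime hp hm hpm f (c : ℂ)
    set T : ℕ → ℕ → ℝ := fun i j => ∑ η ∈ primitiveRoots m ℂ,
        ‖(aeval η (part f p i) - if i = 0 then (c : ℂ) else 0) -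
          (aeval η (part f p j) - if j = 0 then (c : ℂ) else 0)‖ ^ 2 with hT
    have hT0 : ∀ i j, 0 ≤ T i j := fun i j => Finset.sum_nonneg fun _ _ => by positivity
    set φm : ℝ := ((primitiveRoots m ℂ).card : ℝ) with hφm
    have hφm0 : 0 ≤ φm := Nat.cast_nonneg _
    have hT1 : ∀ j ∈ S, φm * (c - round c) ^ 2 ≤ T 0 j := by
      intro j hj
      have hj0 : j ≠ 0 := Finset.ne_of_mem_erase hj
      have h1 := dist_bound hm c (part f p 0 - part f p j)
      refine h1.trans (le_of_eq ?_)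
      apply Finset.sum_congr rfl
      intro η _
      rw [if_pos rfl, if_neg hj0, map_sub]
      congr 2
      ring
    have hT2 : ∀ i ∈ S, φm * (c - round c) ^ 2 ≤ T i 0 := by
      intro i hi
      refine (hT1 i hi).trans (le_of_eq ?_)
      apply Finset.sum_congr rfl
      intro η _
      rw [norm_sub_rev]
    have hT3 : ∀ i ∈ S, ∀ j ∈ S, φm * (if v i = v j then (0 : ℝ) else 1) ≤ T i j := by
      intro i hi j hj
      split_ifs with hij
      · rw [mul_zero]; exact hT0 i j
      · rw [mul_one]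
        have hne : aeval η₀ (part f p i - part f p j) ≠ 0 := by
          rw [map_sub]
          exact sub_ne_zero.mpr hij
        refine (card_le_sum_norm_sq hm hη₀ hne).trans (le_of_eq ?_)
        apply Finset.sum_congr rfl
        intro η _
        rw [if_neg (Finset.ne_of_mem_erase hi), if_neg (Finset.ne_of_mem_erase hj), map_sub,
          sub_zero, sub_zero]
    have hsum : ∑ i ∈ Finset.range p, ∑ j ∈ Finset.range p, T i j =
        T 0 0 + ∑ j ∈ S, T 0 j + (∑ i ∈ S, T i 0 + ∑ i ∈ S, ∑ j ∈ S, T i j) := by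
      rw [← Finset.add_sum_erase _ _ (Finset.mem_range.mpr hp.pos)]
      rw [← Finset.add_sum_erase _ (fun j => T 0 j) (Finset.mem_range.mpr hp.pos)]
      congr 1
      rw [← Finset.sum_add_distrib]
      apply Finset.sum_congr rfl
      intro i _
      rw [← Finset.add_sum_erase _ (fun j => T i j) (Finset.mem_range.mpr hp.pos)]
    have h1 : ∑ j ∈ S, φm * (c - round c) ^ 2 ≤ ∑ j ∈ S, T 0 j := Finset.sum_le_sum hT1
    have h2 : ∑ i ∈ S, φm * (c - round c) ^ 2 ≤ ∑ i ∈ S, T i 0 := Finset.sum_le_sum hT2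
    have h3 : ∑ i ∈ S, ∑ j ∈ S, φm * (if v i = v j then (0 : ℝ) else 1) ≤
        ∑ i ∈ S, ∑ j ∈ S, T i j :=
      Finset.sum_le_sum fun i hi => Finset.sum_le_sum fun j hj => hT3 i hi j hj
    have h4 := pairs_bound S v h
    have h5 : φm * (4 * ((S.card : ℝ) - 2)) ≤
        ∑ i ∈ S, ∑ j ∈ S, φm * (if v i = v j then (0 : ℝ) else 1) := by
      have : ∑ i ∈ S, ∑ j ∈ S, φm * (if v i = v j then (0 : ℝ) else 1) =
          φm * ∑ i ∈ S, ∑ j ∈ S, (if v i = v j then (0 : ℝ) else 1) := by
        rw [Finset.mul_sum]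
        apply Finset.sum_congr rfl
        intro i _
        rw [Finset.mul_sum]
      rw [this]
      exact mul_le_mul_of_nonneg_left h4 hφm0
    have hScard' : (S.card : ℝ) = (p : ℝ) - 1 := by
      rw [hScard, Nat.cast_sub hp.one_lt.le]; simp
    rw [Finset.sum_const, nsmul_eq_mul, hScard'] at h1 h2
    rw [hScard'] at h5
    have hcardN : ((primitiveRoots (p * m) ℂ).card : ℝ) = ((p : ℝ) - 1) * φm := by
      rw [hφm, Complex.card_primitiveRoots, Complex.card_primitiveRoots, Nat.totient_mul hpm,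
        Nat.totient_prime hp]
      push_cast [Nat.cast_sub hp.one_lt.le]
      ring
    rw [hcardN]
    rw [hsum] at hdec
    have h6 : ((p : ℝ) - 1) * φm * (2 - 4 / ((p : ℝ) - 1) + (c - round c) ^ 2) =
        φm * (2 * ((p : ℝ) - 1) - 4 + ((p : ℝ) - 1) * (c - round c) ^ 2) := by
      field_simp
    rw [h6]
    have h7 := hT0 0 0
    nlinarith
  · left
    push Not at h
    obtain ⟨t, ht⟩ := h
    by_cases hexc : ∃ j₁ ∈ S, v j₁ ≠ t
    · exfalso
      obtain ⟨j₁, hj₁, hvj₁⟩ := hexc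
      have hothers : ∀ j ∈ S.erase j₁, v j = t := by
        intro j hj
        by_contra hne
        have hsub : ({j₁, j} : Finset ℕ) ⊆ S.filter (fun i => v i ≠ t) := by
          intro x hx
          rw [Finset.mem_insert, Finset.mem_singleton] at hx
          rw [Finset.mem_filter]
          rcases hx with rfl | rfl
          · exact ⟨hj₁, hvj₁⟩
          · exact ⟨Finset.mem_of_mem_erase hj, hne⟩
        have h1 := Finset.card_le_card hsub
        rw [Finset.card_pair (Finset.ne_of_mem_erase hj).symm] at h1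
        omega
      have hj₁' : j₁ ≠ 0 ∧ j₁ < p := by
        rw [hS, Finset.mem_erase, Finset.mem_range] at hj₁
        exact hj₁
      set ξ : ℂ := ω₀ ^ j₁ with hξ
      have hξp : IsPrimitiveRoot ξ p := hω₀.pow_of_coprime j₁
        (Nat.coprime_of_lt_prime hj₁'.1 hj₁'.2 hp).symm
      set b : ℂ := v j₁ - t with hb
      have hb0 : b ≠ 0 := sub_ne_zero.mpr hvj₁
      have hval : ∀ s : ℕ, 0 < s → s < p → ((v 0 - t) + ξ ^ s * b).im = 0 := by
        intro s hs0 hsp
        have hωs : IsPrimitiveRoot (ω₀ ^ s) p := hω₀.pow_of_coprime s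
          (Nat.coprime_of_lt_prime hs0.ne' hsp hp).symm
        have hz : η₀ * ω₀ ^ s ∈ primitiveRoots (p * m) ℂ := by
          rw [mem_primitiveRoots (Nat.mul_pos hp.pos hm)]
          exact primitive_mul hpm hη₀ hωs
        have h1 := (hf _ hz).1
        rw [aeval_factor f hp.pos hωs.pow_eq_one] at h1
        rw [← h1]
        congr 1
        have h2 := sum_erase_pow hp.one_lt hωs
        rw [← Finset.add_sum_erase _ _ hj₁] at h2 ⊢
        have h3 : ∑ j ∈ S.erase j₁, (ω₀ ^ s) ^ j * aeval η₀ (part f p j) =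
            (∑ j ∈ S.erase j₁, (ω₀ ^ s) ^ j) * t := by
          rw [Finset.sum_mul]
          apply Finset.sum_congr rfl
          intro j hj
          rw [show aeval η₀ (part f p j) = t from hothers j hj]
        rw [h3]
        have h4 : ∑ j ∈ S.erase j₁, (ω₀ ^ s) ^ j = -1 - (ω₀ ^ s) ^ j₁ := by
          rw [← h2]; ring
        rw [h4]
        have h5 : ξ ^ s = (ω₀ ^ s) ^ j₁ := by
          rw [hξ, ← pow_mul, ← pow_mul, mul_comm]
        rw [h5, hb]
        show v 0 - t + (ω₀ ^ s) ^ j₁ * (v j₁ - t) =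
          v 0 + ((ω₀ ^ s) ^ j₁ * v j₁ + (-1 - (ω₀ ^ s) ^ j₁) * t)
        ring
      have h1 := hval 1 (by norm_num) (by omega)
      have h2 := hval 2 (by norm_num) (by omega)
      have h3 := hval 3 (by norm_num) (by omega)
      set w : ℂ := b * ξ * (ξ - 1) with hw
      have hw0 : w ≠ 0 := by
        rw [hw]
        exact mul_ne_zero (mul_ne_zero hb0 (hξp.ne_zero hp.ne_zero))
          (sub_ne_zero.mpr (hξp.ne_one hp.one_lt))
      have hwim : w.im = 0 := by
        have : w = ((v 0 - t) + ξ ^ 2 * b) - ((v 0 - t) + ξ ^ 1 * b) := by rw [hw]; ring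
        rw [this, Complex.sub_im, h1, h2, sub_zero]
      have hwξim : (w * ξ).im = 0 := by
        have : w * ξ = ((v 0 - t) + ξ ^ 3 * b) - ((v 0 - t) + ξ ^ 2 * b) := by rw [hw]; ring
        rw [this, Complex.sub_im, h2, h3, sub_zero]
      have hwre : w.re ≠ 0 := by
        intro h0
        exact hw0 (Complex.ext h0 hwim)
      have hξim : ξ.im = 0 := by
        rw [Complex.mul_im, hwim, zero_mul, add_zero] at hwξim
        exact (mul_eq_zero.mp hwξim).resolve_left hwre
      have hξn : ‖ξ‖ = 1 := hξp.norm'_eq_one hp.ne_zero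
      have hξ2 : ξ ^ 2 = 1 := by
        have h4 : ξ = ((ξ.re : ℝ) : ℂ) := Complex.ext (by simp) (by simp [hξim])
        rw [h4, Complex.norm_real, Real.norm_eq_abs] at hξn
        rw [h4, ← Complex.ofReal_pow, ← sq_abs, hξn]
        simp
      have h5 := (hξp.pow_eq_one_iff_dvd 2).mp hξ2
      have h6 := Nat.le_of_dvd (by norm_num) h5
      omega
    · push Not at hexc
      refine ⟨part f p 0 - part f p 1, ?_, ?_⟩
      all_goals
        have h1S : 1 ∈ S := by
          rw [hS, Finset.mem_erase, Finset.mem_range]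
          exact ⟨one_ne_zero, by omega⟩
        have hval : ∀ η ω : ℂ, IsPrimitiveRoot η m → IsPrimitiveRoot ω p →
            aeval (η * ω) f = aeval η (part f p 0 - part f p 1) := by
          intro η ω hη hω
          rw [aeval_factor f hp.pos hω.pow_eq_one, map_sub]
          have h3 : ∑ j ∈ (Finset.range p).erase 0, ω ^ j * aeval η (part f p j) =
              (∑ j ∈ (Finset.range p).erase 0, ω ^ j) * aeval η (part f p 1) := by
            rw [Finset.sum_mul]
            apply Finset.sum_congr rfl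
            intro j hj
            have h4 : aeval η₀ (part f p j - part f p 1) = 0 := by
              rw [map_sub, sub_eq_zero]
              exact (hexc j hj).trans (hexc 1 h1S).symm
            have h5 := aeval_eq_zero_of_primitive hm hη₀ hη h4
            rw [map_sub, sub_eq_zero] at h5
            rw [h5]
          rw [h3, sum_erase_pow hp.one_lt hω]
          ring
      · intro η hη
        rw [mem_primitiveRoots hm] at hη
        have h2 := hf (η * ω₀) (by
          rw [mem_primitiveRoots (Nat.mul_pos hp.pos hm)]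
          exact primitive_mul hpm hη hω₀)
        rw [hval η ω₀ hη hω₀] at h2
        exact h2
      · intro x hx
        unfold V at hx ⊢
        rw [Finset.mem_image] at hx ⊢
        obtain ⟨z, hz, rfl⟩ := hx
        rw [mem_primitiveRoots (Nat.mul_pos hp.pos hm)] at hz
        obtain ⟨η, ω, hη, hω, rfl⟩ := exists_factor hp.pos hm hpm hz
        exact ⟨η, by rw [mem_primitiveRoots hm]; exact hη, (hval η ω hη hω).symm⟩

end Pool.Agent.Lib.MP_f0992b_nt
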