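import Mathlib
import Pool.Agent.Lib.MP_f0992b_nt.Energy

set_option autoImplicit false

open Finset

namespace Pool.Agent.Lib.MP_f0992b_nt

/-- `2 cos (k θ)` where `x = 2 cos θ`. -/
noncomputable def tc (k x : ℝ) : ℝ := 2 * Real.cos (k * Real.arccos (x / 2))

/-- The smoothed kernel of `-2 log |x - y|`. -/
noncomputable def kap (r x y : ℝ) : ℝ :=
  2 * (- Real.log (D r (Real.arccos (x / 2) + Real.arccos (y / 2))) +
    - Real.log (D r (Real.arccos (x / 2) - Real.arccos (y / 2))))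

lemma tc_mul (k x y : ℝ) : tc k x * tc k y =
    2 * Real.cos (k * (Real.arccos (x / 2) + Real.arccos (y / 2))) +
      2 * Real.cos (k * (Real.arccos (x / 2) - Real.arccos (y / 2))) := by
  unfold tc
  rw [mul_add, mul_sub, Real.cos_add, Real.cos_sub]
  ring

lemma hasSum_kap (r x y : ℝ) (hr : 0 ≤ r) (hr1 : r < 1) :
    HasSum (fun n : ℕ => r ^ n / n * (tc n x * tc n y)) (kap r x y) := by
  have h := ((hasSum_neg_log_D r (Real.arccos (x / 2) + Real.arccos (y / 2)) hr hr1).add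
    (hasSum_neg_log_D r (Real.arccos (x / 2) - Real.arccos (y / 2)) hr hr1)).mul_left 2
  have heq : (fun n : ℕ => r ^ n / n * (tc n x * tc n y)) = fun n : ℕ =>
      2 * (r ^ n * Real.cos (n * (Real.arccos (x / 2) + Real.arccos (y / 2))) / n +
        r ^ n * Real.cos (n * (Real.arccos (x / 2) - Real.arccos (y / 2))) / n) := by
    funext n
    rw [tc_mul]
    ring
  rw [heq]
  exact h

lemma kap_le (r x y : ℝ) (hr : 0 ≤ r) (hr1 : r < 1) (hx : |x| ≤ 2) (hy : |y| ≤ 2)
    (hxy : x ≠ y) : kap r x y ≤ - 2 * Real.log |x - y| + 4 * Real.log (2 / (1 + r)) := by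
  have hcos : ∀ z : ℝ, |z| ≤ 2 → 2 * Real.cos (Real.arccos (z / 2)) = z := by
    intro z hz
    have h := abs_le.mp hz
    rw [Real.cos_arccos (by linarith [h.1]) (by linarith [h.2])]
    ring
  have hne : 0 < |x - y| := abs_pos.mpr (sub_ne_zero.mpr hxy)
  have hle : |x - y| ≤ (2 / (1 + r) * D r (Real.arccos (x / 2) + Real.arccos (y / 2))) *
      (2 / (1 + r) * D r (Real.arccos (x / 2) - Real.arccos (y / 2))) := by
    conv_lhs => rw [← hcos x hx, ← hcos y hy, abs_sub_eq]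
    exact mul_le_mul (D_one_le r _ hr) (D_one_le r _ hr) (D_nonneg _ _)
      (mul_nonneg (by positivity) (D_nonneg _ _))
  have hp : ∀ θ, 0 < D r θ := fun θ => lt_of_lt_of_le (by linarith) (D_ge r θ hr)
  have h3 := Real.log_le_log hne hle
  have h4 : (0:ℝ) < 2 / (1 + r) := by positivity
  rw [Real.log_mul (mul_pos h4 (hp _)).ne' (mul_pos h4 (hp _)).ne',
    Real.log_mul h4.ne' (hp _).ne', Real.log_mul h4.ne' (hp _).ne'] at h3
  unfold kap
  linarith

lemma kap_self_le (r x : ℝ) (hr : 0 ≤ r) (hr1 : r < 1) :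
    kap r x x ≤ 4 * (- Real.log (1 - r)) := by
  have hDlog : ∀ θ, Real.log (1 - r) ≤ Real.log (D r θ) := fun θ =>
    Real.log_le_log (by linarith) (D_ge r θ hr)
  unfold kap
  have h1 := hDlog (Real.arccos (x / 2) + Real.arccos (x / 2))
  have h2 := hDlog (Real.arccos (x / 2) - Real.arccos (x / 2))
  linarith

/-- Chebyshev sums of a finite set. -/
noncomputable def sc (X : Finset ℝ) (k : ℝ) : ℝ := ∑ x ∈ X, tc k x

/-- Smoothed mutual energy. -/
noncomputable def ge (r : ℝ) (X Y : Finset ℝ) : ℝ := ∑ x ∈ X, ∑ y ∈ Y, kap r x y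

lemma hasSum_ge (r : ℝ) (X Y : Finset ℝ) (hr : 0 ≤ r) (hr1 : r < 1) :
    HasSum (fun n : ℕ => r ^ n / n * (sc X n * sc Y n)) (ge r X Y) := by
  have h : HasSum (fun n : ℕ => ∑ x ∈ X, ∑ y ∈ Y, r ^ n / n * (tc n x * tc n y)) (ge r X Y) :=
    hasSum_sum fun x _ => hasSum_sum fun y _ => hasSum_kap r x y hr hr1
  have heq : (fun n : ℕ => r ^ n / n * (sc X n * sc Y n)) =
      fun n : ℕ => ∑ x ∈ X, ∑ y ∈ Y, r ^ n / n * (tc n x * tc n y) := by
    funext n
    unfold sc
    rw [Finset.sum_mul_sum, Finset.mul_sum]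
    apply Finset.sum_congr rfl
    intro x _
    rw [Finset.mul_sum]
  rw [heq]
  exact h

lemma quad (r : ℝ) (F : Finset (Finset ℝ)) (c : Finset ℝ → ℝ) (hr : 0 ≤ r) (hr1 : r < 1)
    (k : ℕ) : r ^ k / k * (∑ X ∈ F, c X * sc X k) ^ 2 ≤
      ∑ X ∈ F, ∑ Y ∈ F, c X * c Y * ge r X Y := by
  have h : HasSum (fun n : ℕ => ∑ X ∈ F, ∑ Y ∈ F, c X * c Y * (r ^ n / n * (sc X n * sc Y n)))
      (∑ X ∈ F, ∑ Y ∈ F, c X * c Y * ge r X Y) :=
    hasSum_sum fun X _ => hasSum_sum fun Y _ => (hasSum_ge r X Y hr hr1).mul_left _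
  have h2 : ∀ n : ℕ, ∑ X ∈ F, ∑ Y ∈ F, c X * c Y * (r ^ n / n * (sc X n * sc Y n)) =
      r ^ n / n * (∑ X ∈ F, c X * sc X n) ^ 2 := by
    intro n
    rw [sq, Finset.sum_mul_sum, Finset.mul_sum]
    apply Finset.sum_congr rfl
    intro X _
    rw [Finset.mul_sum]
    apply Finset.sum_congr rfl
    intro Y _
    ring
  simp only [h2] at h
  exact le_hasSum h k (fun n _ => by positivity)

/-- The hypotheses on the family. -/
structure Fam (F : Finset (Finset ℝ)) (μ : ℝ) : Prop where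
  bd : ∀ X ∈ F, ∀ x ∈ X, |x| ≤ 2
  pos : ∀ X ∈ F, 0 < X.card
  self : ∀ X ∈ F, - μ * ((X.card : ℝ) * X.card - X.card) ≤
    ∑ x ∈ X, ∑ y ∈ X, if x = y then 0 else Real.log |x - y|
  disj : ∀ X ∈ F, ∀ Y ∈ F, X ≠ Y → Disjoint X Y
  res : ∀ X ∈ F, ∀ Y ∈ F, X ≠ Y → - μ * ((X.card : ℝ) * Y.card) ≤
    ∑ x ∈ X, ∑ y ∈ Y, Real.log |x - y|

lemma ge_le {F : Finset (Finset ℝ)} {μ : ℝ} (hF : Fam F μ) (r : ℝ) (hr : 0 ≤ r) (hr1 : r < 1)
    {X Y : Finset ℝ} (hX : X ∈ F) (hY : Y ∈ F) :
    ge r X Y ≤ (4 * Real.log (2 / (1 + r)) + 2 * μ) * (X.card * Y.card) +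
      (if X = Y then (4 * (- Real.log (1 - r)) - 2 * μ) * X.card else 0) := by
  classical
  have hL : 0 ≤ Real.log (2 / (1 + r)) := by
    apply Real.log_nonneg
    rw [le_div_iff₀ (by linarith)]
    linarith
  by_cases h : X = Y
  · subst h
    rw [if_pos rfl]
    have h1 : ∀ x ∈ X, ∀ y ∈ X, kap r x y ≤
        - 2 * (if x = y then 0 else Real.log |x - y|) + 4 * Real.log (2 / (1 + r)) +
          (if x = y then 4 * (- Real.log (1 - r)) else 0) := by
      intro x hx y hy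
      split_ifs with hxy
      · subst hxy
        have := kap_self_le r x hr hr1
        linarith
      · have := kap_le r x y hr hr1 (hF.bd X hX x hx) (hF.bd X hX y hy) hxy
        linarith
    have h2 : ge r X X ≤ ∑ x ∈ X, ∑ y ∈ X,
        (- 2 * (if x = y then 0 else Real.log |x - y|) + 4 * Real.log (2 / (1 + r)) +
          (if x = y then 4 * (- Real.log (1 - r)) else 0)) :=
      Finset.sum_le_sum fun x hx => Finset.sum_le_sum fun y hy => h1 x hx y hy
    refine h2.trans ?_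
    simp only [Finset.sum_add_distrib, ← Finset.mul_sum, Finset.sum_const, nsmul_eq_mul]
    have h3 : ∑ x ∈ X, ∑ y ∈ X, (if x = y then 4 * (- Real.log (1 - r)) else 0) =
        4 * (- Real.log (1 - r)) * X.card := by
      have : ∀ x ∈ X, ∑ y ∈ X, (if x = y then 4 * (- Real.log (1 - r)) else 0) =
          4 * (- Real.log (1 - r)) := by
        intro x hx
        rw [Finset.sum_ite_eq, if_pos hx]
      rw [Finset.sum_congr rfl this, Finset.sum_const, nsmul_eq_mul]
      ring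
    rw [h3]
    have h4 := hF.self X hX
    nlinarith
  · rw [if_neg h]
    have h1 : ∀ x ∈ X, ∀ y ∈ Y, kap r x y ≤
        - 2 * Real.log |x - y| + 4 * Real.log (2 / (1 + r)) := by
      intro x hx y hy
      have hxy : x ≠ y := by
        rintro rfl
        exact (Finset.disjoint_left.mp (hF.disj X hX Y hY h)) hx hy
      exact kap_le r x y hr hr1 (hF.bd X hX x hx) (hF.bd Y hY y hy) hxy
    have h2 : ge r X Y ≤ ∑ x ∈ X, ∑ y ∈ Y,
        (- 2 * Real.log |x - y| + 4 * Real.log (2 / (1 + r))) :=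
      Finset.sum_le_sum fun x hx => Finset.sum_le_sum fun y hy => h1 x hx y hy
    refine h2.trans ?_
    simp only [Finset.sum_add_distrib, ← Finset.mul_sum, Finset.sum_const, nsmul_eq_mul]
    have h4 := hF.res X hX Y hY h
    nlinarith

lemma half_bound {F : Finset (Finset ℝ)} {μ : ℝ} (hF : Fam F μ) (hμ : 0 ≤ μ) (r : ℝ)
    (hr : 0 < r) (hr1 : r < 1) (k : ℕ) (hk : 0 < k) (σ : ℝ) (hσ : σ ^ 2 = 1) :
    ∑ X ∈ F, (max (σ * sc X k) 0) ^ 2 / X.card ≤
      k / r ^ k * (4 * (- Real.log (1 - r)) +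
        (4 * Real.log (2 / (1 + r)) + 2 * μ) * ∑ X ∈ F, (X.card : ℝ)) := by
  classical
  set u : Finset ℝ → ℝ := fun X => max (σ * sc X k) 0 with hu
  set W : ℝ := ∑ X ∈ F, (u X) ^ 2 / X.card with hW
  set B : ℝ := 4 * (- Real.log (1 - r)) with hB
  set L : ℝ := 4 * Real.log (2 / (1 + r)) + 2 * μ with hL
  set T : ℝ := ∑ X ∈ F, (X.card : ℝ) with hT
  have hu0 : ∀ X, 0 ≤ u X := fun X => le_max_right _ _
  have hcard : ∀ X ∈ F, (0:ℝ) < X.card := fun X hX => by exact_mod_cast hF.pos X hX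
  have hus : ∀ X, u X * sc X k = σ * (u X) ^ 2 := by
    intro X
    simp only [hu]
    rcases le_total (σ * sc X k) 0 with h | h
    · rw [max_eq_right h]; ring
    · rw [max_eq_left h]
      have : σ * (σ * sc X k) ^ 2 = σ * (σ ^ 2 * sc X k ^ 2) := by ring
      rw [this, hσ]
      ring
  have hL0 : 0 ≤ L := by
    rw [hL]
    have h0 : 0 ≤ Real.log (2 / (1 + r)) := by
      apply Real.log_nonneg
      rw [le_div_iff₀ (by linarith)]
      linarith
    linarith
  have hB0 : 0 ≤ B := by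
    rw [hB]
    have := Real.log_nonpos (by linarith : (0:ℝ) ≤ 1 - r) (by linarith)
    linarith
  have hT0 : 0 ≤ T := Finset.sum_nonneg fun X _ => Nat.cast_nonneg _
  have hq := quad r F (fun X => u X / X.card) hr.le hr1 k
  have h1 : ∑ X ∈ F, u X / X.card * sc X k = σ * W := by
    rw [hW, Finset.mul_sum]
    apply Finset.sum_congr rfl
    intro X _
    rw [div_mul_eq_mul_div, hus]
    ring
  rw [h1] at hq
  have h2 : ∑ X ∈ F, ∑ Y ∈ F, u X / X.card * (u Y / Y.card) * ge r X Y ≤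
      ∑ X ∈ F, ∑ Y ∈ F, u X / X.card * (u Y / Y.card) * (L * (X.card * Y.card) +
        (if X = Y then B * X.card else 0)) := by
    apply Finset.sum_le_sum
    intro X hX
    apply Finset.sum_le_sum
    intro Y hY
    have hge : ge r X Y ≤ L * (X.card * Y.card) + (if X = Y then B * X.card else 0) := by
      refine (ge_le hF r hr.le hr1 hX hY).trans ?_
      split_ifs with hXY
      · have h0 : (0:ℝ) ≤ X.card := Nat.cast_nonneg _
        rw [hL, hB]
        nlinarith [mul_nonneg hμ h0]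
      · rw [hL]
    apply mul_le_mul_of_nonneg_left hge
    exact mul_nonneg (div_nonneg (hu0 X) (Nat.cast_nonneg _))
      (div_nonneg (hu0 Y) (Nat.cast_nonneg _))
  have h3 : ∑ X ∈ F, ∑ Y ∈ F, u X / X.card * (u Y / Y.card) * (L * (X.card * Y.card) +
        (if X = Y then B * X.card else 0)) = L * (∑ X ∈ F, u X) ^ 2 + B * W := by
    have h4 : ∀ X ∈ F, ∑ Y ∈ F, u X / X.card * (u Y / Y.card) * (L * (X.card * Y.card) +
        (if X = Y then B * X.card else 0)) =
        L * (u X * ∑ Y ∈ F, u Y) + B * (u X ^ 2 / X.card) := by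
      intro X hX
      have h5 : ∀ Y ∈ F, u X / X.card * (u Y / Y.card) * (L * (X.card * Y.card) +
        (if X = Y then B * X.card else 0)) =
          L * (u X * u Y) + (if X = Y then B * (u X ^ 2 / X.card) else 0) := by
        intro Y hY
        have hx := (hcard X hX).ne'
        have hy := (hcard Y hY).ne'
        split_ifs with hXY
        · subst hXY
          field_simp
        · field_simp
          ring
      rw [Finset.sum_congr rfl h5, Finset.sum_add_distrib, Finset.sum_ite_eq, if_pos hX,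
        ← Finset.mul_sum, ← Finset.mul_sum]
    rw [Finset.sum_congr rfl h4, Finset.sum_add_distrib, ← Finset.mul_sum, ← Finset.mul_sum,
      ← Finset.sum_mul]
    ring
  have h4 : (∑ X ∈ F, u X) ^ 2 ≤ T * W := by
    have h5 : (∑ X ∈ F, u X) ^ 2 / T ≤ W := by
      rw [hT, hW]
      exact Finset.sq_sum_div_le_sum_sq_div F u (fun X hX => hcard X hX)
    rcases eq_or_lt_of_le hT0 with h | h
    · have hF0 : F = ∅ := by
        by_contra hne
        obtain ⟨X, hX⟩ := Finset.nonempty_iff_ne_empty.mpr hne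
        have h6 : (X.card : ℝ) ≤ T := by
          rw [hT]
          exact Finset.single_le_sum (f := fun X : Finset ℝ => (X.card : ℝ))
            (fun Y _ => Nat.cast_nonneg _) hX
        have := hcard X hX
        linarith
      rw [hW, hF0]
      simp
    · rw [div_le_iff₀ h] at h5
      linarith
  have hW0 : 0 ≤ W := Finset.sum_nonneg fun X _ => div_nonneg (sq_nonneg _) (Nat.cast_nonneg _)
  have h5 : r ^ k / k * W ^ 2 ≤ (B + L * T) * W := by
    have h6 : r ^ k / k * (σ * W) ^ 2 = r ^ k / k * W ^ 2 := by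
      rw [mul_pow, hσ, one_mul]
    rw [h6] at hq
    calc r ^ k / k * W ^ 2 ≤ _ := hq
      _ ≤ _ := h2
      _ = L * (∑ X ∈ F, u X) ^ 2 + B * W := h3
      _ ≤ L * (T * W) + B * W := by
        have := mul_le_mul_of_nonneg_left h4 hL0
        linarith
      _ = (B + L * T) * W := by ring
  have hk0 : (0:ℝ) < k := by exact_mod_cast hk
  have hrk : 0 < r ^ k := pow_pos hr k
  rcases eq_or_lt_of_le hW0 with h | h
  · rw [← h]
    have h8 : 0 ≤ B + L * T := add_nonneg hB0 (mul_nonneg hL0 hT0)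
    exact mul_nonneg (div_nonneg hk0.le hrk.le) h8
  · have h7 : r ^ k / k * W ≤ B + L * T := by
      have h8 : (r ^ k / k * W) * W ≤ (B + L * T) * W := by nlinarith
      exact le_of_mul_le_mul_right h8 h
    have h9 : W = k / r ^ k * (r ^ k / k * W) := by
      field_simp
    rw [h9]
    exact mul_le_mul_of_nonneg_left h7 (div_nonneg hk0.le hrk.le)

lemma coord_bound {F : Finset (Finset ℝ)} {μ : ℝ} (hF : Fam F μ) (hμ : 0 ≤ μ) (r : ℝ)
    (hr : 0 < r) (hr1 : r < 1) (k : ℕ) (hk : 0 < k) :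
    ∑ X ∈ F, (sc X k) ^ 2 / X.card ≤
      2 * (k / r ^ k * (4 * (- Real.log (1 - r)) +
        (4 * Real.log (2 / (1 + r)) + 2 * μ) * ∑ X ∈ F, (X.card : ℝ))) := by
  have h1 := half_bound hF hμ r hr hr1 k hk 1 (by norm_num)
  have h2 := half_bound hF hμ r hr hr1 k hk (-1) (by norm_num)
  have h3 : ∀ X ∈ F, (sc X k) ^ 2 / X.card = (max (1 * sc X k) 0) ^ 2 / X.card +
      (max (-1 * sc X k) 0) ^ 2 / X.card := by
    intro X _
    rw [← add_div]
    congr 1
    rcases le_total (sc X k) 0 with h | h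
    · rw [max_eq_right (by linarith), max_eq_left (by linarith)]; ring
    · rw [max_eq_left (by linarith), max_eq_right (by linarith)]; ring
  rw [Finset.sum_congr rfl h3, Finset.sum_add_distrib]
  linarith

lemma fejer (n : ℕ) (ψ : ℝ) :
    0 ≤ ∑ a ∈ range n, ∑ b ∈ range n, Real.cos (((a : ℝ) - b) * ψ) := by
  have h : ∑ a ∈ range n, ∑ b ∈ range n, Real.cos (((a : ℝ) - b) * ψ) =
      (∑ a ∈ range n, Real.cos (a * ψ)) ^ 2 + (∑ a ∈ range n, Real.sin (a * ψ)) ^ 2 := by
    rw [sq, sq, Finset.sum_mul_sum, Finset.sum_mul_sum, ← Finset.sum_add_distrib]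
    apply Finset.sum_congr rfl
    intro a _
    rw [← Finset.sum_add_distrib]
    apply Finset.sum_congr rfl
    intro b _
    rw [sub_mul, Real.cos_sub]
  rw [h]
  positivity

lemma fejer_sc (n : ℕ) (X : Finset ℝ) :
    2 * X.card * (n : ℝ) ^ 2 ≤
      ∑ a ∈ range n, ∑ b ∈ range n, (sc X ((a : ℝ) - b)) ^ 2 := by
  have h1 : ∑ a ∈ range n, ∑ b ∈ range n, (sc X ((a : ℝ) - b)) ^ 2 =
      ∑ x ∈ X, ∑ y ∈ X, ∑ a ∈ range n, ∑ b ∈ range n,
        (2 * Real.cos (((a : ℝ) - b) * (Real.arccos (x / 2) + Real.arccos (y / 2))) +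
        2 * Real.cos (((a : ℝ) - b) * (Real.arccos (x / 2) - Real.arccos (y / 2)))) := by
    have h2 : ∀ a b : ℕ, (sc X ((a : ℝ) - b)) ^ 2 = ∑ x ∈ X, ∑ y ∈ X,
        (2 * Real.cos (((a : ℝ) - b) * (Real.arccos (x / 2) + Real.arccos (y / 2))) +
        2 * Real.cos (((a : ℝ) - b) * (Real.arccos (x / 2) - Real.arccos (y / 2)))) := by
      intro a b
      unfold sc
      rw [sq, Finset.sum_mul_sum]
      apply Finset.sum_congr rfl
      intro x _
      apply Finset.sum_congr rfl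
      intro y _
      rw [tc_mul]
    simp only [h2]
    rw [Finset.sum_comm' (s := range n) (t := fun _ => range n) (t' := range n)
      (s' := fun _ => range n) (by simp)]
    rw [Finset.sum_comm]
    have h3 : ∀ a ∈ range n, ∑ b ∈ range n, ∑ x ∈ X, ∑ y ∈ X,
        (2 * Real.cos (((a : ℝ) - b) * (Real.arccos (x / 2) + Real.arccos (y / 2))) +
        2 * Real.cos (((a : ℝ) - b) * (Real.arccos (x / 2) - Real.arccos (y / 2)))) =
        ∑ x ∈ X, ∑ y ∈ X, ∑ b ∈ range n,
        (2 * Real.cos (((a : ℝ) - b) * (Real.arccos (x / 2) + Real.arccos (y / 2))) +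
        2 * Real.cos (((a : ℝ) - b) * (Real.arccos (x / 2) - Real.arccos (y / 2)))) := by
      intro a _
      rw [Finset.sum_comm]
      apply Finset.sum_congr rfl
      intro x _
      rw [Finset.sum_comm]
    rw [Finset.sum_congr rfl h3, Finset.sum_comm]
    apply Finset.sum_congr rfl
    intro x _
    rw [Finset.sum_comm]
  rw [h1]
  have h4 : ∀ x ∈ X, 2 * (n : ℝ) ^ 2 ≤ ∑ y ∈ X, ∑ a ∈ range n, ∑ b ∈ range n,
        (2 * Real.cos (((a : ℝ) - b) * (Real.arccos (x / 2) + Real.arccos (y / 2))) +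
        2 * Real.cos (((a : ℝ) - b) * (Real.arccos (x / 2) - Real.arccos (y / 2)))) := by
    intro x hx
    have h5 : ∀ y ∈ X, 0 ≤ ∑ a ∈ range n, ∑ b ∈ range n,
        (2 * Real.cos (((a : ℝ) - b) * (Real.arccos (x / 2) + Real.arccos (y / 2))) +
        2 * Real.cos (((a : ℝ) - b) * (Real.arccos (x / 2) - Real.arccos (y / 2)))) := by
      intro y _
      simp only [Finset.sum_add_distrib, ← Finset.mul_sum]
      have h6 := fejer n (Real.arccos (x / 2) + Real.arccos (y / 2))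
      have h7 := fejer n (Real.arccos (x / 2) - Real.arccos (y / 2))
      linarith
    refine le_trans ?_ (Finset.single_le_sum h5 hx)
    simp only [Finset.sum_add_distrib, ← Finset.mul_sum, sub_self, mul_zero, Real.cos_zero]
    have h6 := fejer n (Real.arccos (x / 2) + Real.arccos (x / 2))
    simp only [Finset.sum_const, Finset.card_range, nsmul_eq_mul, mul_one]
    nlinarith
  calc 2 * X.card * (n : ℝ) ^ 2 = ∑ x ∈ X, 2 * (n : ℝ) ^ 2 := by
        rw [Finset.sum_const, nsmul_eq_mul]; ring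
    _ ≤ _ := Finset.sum_le_sum h4

lemma sc_neg (X : Finset ℝ) (t : ℝ) : sc X (-t) = sc X t := by
  unfold sc tc
  apply Finset.sum_congr rfl
  intro x _
  rw [neg_mul, Real.cos_neg]

lemma sc_zero (X : Finset ℝ) : sc X 0 = 2 * X.card := by
  unfold sc tc
  simp
  ring

/-- The count, with parameters. -/
lemma count_param {F : Finset (Finset ℝ)} {μ : ℝ} {D : ℕ} (hF : Fam F μ)
    (hdeg : ∀ X ∈ F, X.card ≤ D) (hμ : 0 ≤ μ) (r : ℝ) (hr : 0 < r)
    (hr1 : r < 1) (n : ℕ) :
    2 * (n : ℝ) ^ 2 * F.card ≤ 4 * n * D * F.card +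
      (n : ℝ) ^ 2 * (2 * (n / r ^ n * (4 * (- Real.log (1 - r)) +
        (4 * Real.log (2 / (1 + r)) + 2 * μ) * ∑ X ∈ F, (X.card : ℝ)))) := by
  classical
  set Q : ℝ := 4 * (- Real.log (1 - r)) +
        (4 * Real.log (2 / (1 + r)) + 2 * μ) * ∑ X ∈ F, (X.card : ℝ) with hQ
  have hQ0 : 0 ≤ Q := by
    rw [hQ]
    have h1 := Real.log_nonpos (by linarith : (0:ℝ) ≤ 1 - r) (by linarith)
    have h2 : 0 ≤ Real.log (2 / (1 + r)) := by
      apply Real.log_nonneg
      rw [le_div_iff₀ (by linarith)]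
      linarith
    have h3 : (0:ℝ) ≤ ∑ X ∈ F, (X.card : ℝ) := Finset.sum_nonneg fun X _ => Nat.cast_nonneg _
    have h4 : 0 ≤ (4 * Real.log (2 / (1 + r)) + 2 * μ) * ∑ X ∈ F, (X.card : ℝ) :=
      mul_nonneg (by linarith) h3
    linarith
  have hcard : ∀ X ∈ F, (0:ℝ) < X.card := fun X hX => by exact_mod_cast hF.pos X hX
  have h1 : 2 * (n : ℝ) ^ 2 * F.card ≤ ∑ X ∈ F,
      (∑ a ∈ range n, ∑ b ∈ range n, (sc X ((a : ℝ) - b)) ^ 2) / X.card := by
    calc 2 * (n : ℝ) ^ 2 * F.card = ∑ X ∈ F, 2 * (n : ℝ) ^ 2 := by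
          rw [Finset.sum_const, nsmul_eq_mul]; ring
      _ ≤ _ := by
          apply Finset.sum_le_sum
          intro X hX
          rw [le_div_iff₀ (hcard X hX)]
          have := fejer_sc n X
          linarith
  have h2 : ∑ X ∈ F, (∑ a ∈ range n, ∑ b ∈ range n, (sc X ((a : ℝ) - b)) ^ 2) / X.card =
      ∑ a ∈ range n, ∑ b ∈ range n, ∑ X ∈ F, (sc X ((a : ℝ) - b)) ^ 2 / X.card := by
    simp only [Finset.sum_div]
    rw [Finset.sum_comm]
    apply Finset.sum_congr rfl
    intro a _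
    rw [Finset.sum_comm]
  have h3 : ∀ a ∈ range n, ∀ b ∈ range n, ∑ X ∈ F, (sc X ((a : ℝ) - b)) ^ 2 / X.card ≤
      (if a = b then 4 * (D : ℝ) * F.card else 0) + 2 * (n / r ^ n * Q) := by
    intro a ha b hb
    rw [Finset.mem_range] at ha hb
    have hrn : 0 < r ^ n := pow_pos hr n
    have hpos : 0 ≤ 2 * (n / r ^ n * Q) := by positivity
    by_cases hab : a = b
    · subst hab
      rw [if_pos rfl]
      have h4 : ∀ X ∈ F, (sc X ((a : ℝ) - a)) ^ 2 / X.card ≤ 4 * (D : ℝ) := by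
        intro X hX
        rw [sub_self, sc_zero, div_le_iff₀ (hcard X hX)]
        have h5 : (X.card : ℝ) ≤ D := by exact_mod_cast hdeg X hX
        have h6 := hcard X hX
        nlinarith
      have h5 := Finset.sum_le_sum h4
      rw [Finset.sum_const, nsmul_eq_mul] at h5
      linarith
    · rw [if_neg hab, zero_add]
      obtain ⟨k, hk, hkn, hsc⟩ : ∃ k : ℕ, 0 < k ∧ k ≤ n ∧
          ∀ X : Finset ℝ, sc X ((a : ℝ) - b) = sc X (k : ℝ) := by
        rcases Nat.lt_or_gt_of_ne hab with h | h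
        · refine ⟨b - a, by omega, by omega, fun X => ?_⟩
          rw [Nat.cast_sub h.le, ← sc_neg]
          congr 1
          ring
        · refine ⟨a - b, by omega, by omega, fun X => ?_⟩
          rw [Nat.cast_sub h.le]
      have h4 := coord_bound hF hμ r hr hr1 k hk
      simp only [hsc]
      refine h4.trans ?_
      have h5 : (k : ℝ) / r ^ k ≤ n / r ^ n := by
        have h6 : r ^ n ≤ r ^ k := pow_le_pow_of_le_one hr.le hr1.le hkn
        have h7 : (k : ℝ) ≤ n := by exact_mod_cast hkn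
        exact div_le_div₀ (Nat.cast_nonneg _) h7 hrn h6
      have h8 := mul_le_mul_of_nonneg_right h5 hQ0
      linarith
  have h4 : ∑ a ∈ range n, ∑ b ∈ range n, ∑ X ∈ F, (sc X ((a : ℝ) - b)) ^ 2 / X.card ≤
      ∑ a ∈ range n, ∑ b ∈ range n,
        ((if a = b then 4 * (D : ℝ) * F.card else 0) + 2 * (n / r ^ n * Q)) :=
    Finset.sum_le_sum fun a ha => Finset.sum_le_sum fun b hb => h3 a ha b hb
  have h5 : ∑ a ∈ range n, ∑ b ∈ range n,
        ((if a = b then 4 * (D : ℝ) * F.card else 0) + 2 * (n / r ^ n * Q)) =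
      4 * n * D * F.card + (n : ℝ) ^ 2 * (2 * (n / r ^ n * Q)) := by
    have h6 : ∀ a ∈ range n, ∑ b ∈ range n,
        ((if a = b then 4 * (D : ℝ) * F.card else 0) + 2 * (n / r ^ n * Q)) =
        4 * (D : ℝ) * F.card + n * (2 * (n / r ^ n * Q)) := by
      intro a ha
      rw [Finset.sum_add_distrib, Finset.sum_ite_eq, if_pos ha, Finset.sum_const,
        Finset.card_range, nsmul_eq_mul]
    rw [Finset.sum_congr rfl h6, Finset.sum_const, Finset.card_range, nsmul_eq_mul]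
    ring
  rw [h2] at h1
  linarith

/-- Families of sets of at least `D` points with strongly repelling energies are small. -/
lemma large_param {F : Finset (Finset ℝ)} {μ : ℝ} {D : ℕ} (hF : Fam F μ) (hD : 0 < D)
    (hdeg : ∀ X ∈ F, D ≤ X.card) (hμ : μ ≤ 0) (r : ℝ) (hr : 0 ≤ r) (hr1 : r < 1) :
    - (4 * Real.log (2 / (1 + r)) + 2 * μ) * (F.card : ℝ) ^ 2 ≤
      (4 * (- Real.log (1 - r)) - 2 * μ) * (F.card / D) := by
  classical
  have hcard : ∀ X ∈ F, (0:ℝ) < X.card := fun X hX => by exact_mod_cast hF.pos X hX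
  have hD0 : (0:ℝ) < D := by exact_mod_cast hD
  have hB0 : 0 ≤ 4 * (- Real.log (1 - r)) - 2 * μ := by
    have := Real.log_nonpos (by linarith : (0:ℝ) ≤ 1 - r) (by linarith)
    linarith
  have hq := quad r F (fun X => 1 / X.card) hr hr1 0
  rw [pow_zero, Nat.cast_zero, div_zero, zero_mul] at hq
  have h1 : ∑ X ∈ F, ∑ Y ∈ F, 1 / (X.card : ℝ) * (1 / Y.card) * ge r X Y ≤
      ∑ X ∈ F, ∑ Y ∈ F, ((4 * Real.log (2 / (1 + r)) + 2 * μ) +
        (if X = Y then (4 * (- Real.log (1 - r)) - 2 * μ) * (1 / X.card) else 0)) := by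
    apply Finset.sum_le_sum
    intro X hX
    apply Finset.sum_le_sum
    intro Y hY
    have h2 := ge_le hF r hr hr1 hX hY
    have h3 : (0:ℝ) ≤ 1 / (X.card : ℝ) * (1 / Y.card) := by
      have := hcard X hX
      have := hcard Y hY
      positivity
    refine (mul_le_mul_of_nonneg_left h2 h3).trans (le_of_eq ?_)
    have hx := (hcard X hX).ne'
    have hy := (hcard Y hY).ne'
    split_ifs with hXY
    · subst hXY
      field_simp
    · field_simp
      ring
  have h2 : ∑ X ∈ F, ∑ Y ∈ F, ((4 * Real.log (2 / (1 + r)) + 2 * μ) +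
        (if X = Y then (4 * (- Real.log (1 - r)) - 2 * μ) * (1 / X.card) else 0)) =
      (4 * Real.log (2 / (1 + r)) + 2 * μ) * (F.card : ℝ) ^ 2 +
        (4 * (- Real.log (1 - r)) - 2 * μ) * ∑ X ∈ F, 1 / (X.card : ℝ) := by
    have h3 : ∀ X ∈ F, ∑ Y ∈ F, ((4 * Real.log (2 / (1 + r)) + 2 * μ) +
        (if X = Y then (4 * (- Real.log (1 - r)) - 2 * μ) * (1 / X.card) else 0)) =
        F.card * (4 * Real.log (2 / (1 + r)) + 2 * μ) +
          (4 * (- Real.log (1 - r)) - 2 * μ) * (1 / X.card) := by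
      intro X hX
      rw [Finset.sum_add_distrib, Finset.sum_ite_eq, if_pos hX, Finset.sum_const, nsmul_eq_mul]
    rw [Finset.sum_congr rfl h3, Finset.sum_add_distrib, Finset.sum_const, nsmul_eq_mul,
      ← Finset.mul_sum]
    ring
  have h3 : ∑ X ∈ F, 1 / (X.card : ℝ) ≤ F.card / D := by
    calc ∑ X ∈ F, 1 / (X.card : ℝ) ≤ ∑ X ∈ F, 1 / (D : ℝ) := by
          apply Finset.sum_le_sum
          intro X hX
          apply one_div_le_one_div_of_le hD0
          exact_mod_cast hdeg X hX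
      _ = F.card / D := by rw [Finset.sum_const, nsmul_eq_mul]; ring
  have h4 := mul_le_mul_of_nonneg_left h3 hB0
  linarith

end Pool.Agent.Lib.MP_f0992b_nt
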