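import Mathlib
import Pool.Agent.Lib.MP_f0992b_nt.CountCore

set_option autoImplicit false

open Finset Polynomial

namespace Pool.Agent.Lib.MP_f0992b_nt

/-- complex polynomial of an integer polynomial -/
noncomputable def pc (P : ℤ[X]) : ℂ[X] := P.map (Int.castRingHom ℂ)

lemma eval_pc (P : ℤ[X]) (z : ℂ) : (pc P).eval z = aeval z P := by
  unfold pc
  rw [eval_map, aeval_def]
  congr 1

/-- The product of values of an integer polynomial at the roots of a monic integer polynomial is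
at least one in absolute value, if there is no common zero. -/
lemma one_le_prod_roots {f g : ℤ[X]} (hf : f.Monic)
    (hfg : ∀ z : ℂ, aeval z f = 0 → aeval z g ≠ 0) :
    1 ≤ ‖((pc f).roots.map (fun z => (pc g).eval z)).prod‖ := by
  have h1 := resultant_eq_prod_eval (pc f) (pc g) g.natDegree natDegree_map_le
    (IsAlgClosed.splits _)
  have hdeg : (pc f).natDegree = f.natDegree := hf.natDegree_map _
  have hmon : (pc f).Monic := hf.map _
  rw [hdeg, hmon.leadingCoeff, one_pow, one_mul] at h1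
  have h2 : resultant (pc f) (pc g) f.natDegree g.natDegree =
      Int.castRingHom ℂ (resultant f g f.natDegree g.natDegree) := by
    unfold pc
    exact resultant_map_map f g f.natDegree g.natDegree (Int.castRingHom ℂ)
  rw [h2] at h1
  have h3 : ((pc f).roots.map (fun z => (pc g).eval z)).prod ≠ 0 := by
    apply Multiset.prod_ne_zero
    intro h
    rw [Multiset.mem_map] at h
    obtain ⟨z, hz, hz2⟩ := h
    rw [mem_roots hmon.ne_zero, IsRoot.def, eval_pc] at hz
    rw [eval_pc] at hz2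
    exact hfg z hz hz2
  have h3' : ((pc f).roots.map (fun z => (pc g).eval z)).prod =
      Int.castRingHom ℂ (resultant f g f.natDegree g.natDegree) := h1.symm
  rw [h3'] at h3 ⊢
  have h4 : resultant f g f.natDegree g.natDegree ≠ 0 := by
    intro h
    apply h3
    rw [h, map_zero]
  rw [eq_intCast, Complex.norm_intCast]
  have h5 : 1 ≤ |resultant f g f.natDegree g.natDegree| := Int.one_le_abs h4
  exact_mod_cast h5

lemma dvd_of_common {P g : ℤ[X]} (hmon : P.Monic) (hirr : Irreducible P) {α : ℂ}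
    (hα : aeval α P = 0) (hg : aeval α g = 0) : P ∣ g := by
  have hint : IsIntegral ℤ α := ⟨P, hmon, by rw [← hα, aeval_def]⟩
  have h1 : minpoly ℤ α ∣ P := minpoly.isIntegrallyClosed_dvd hint hα
  have h2 : minpoly ℤ α ∣ g := minpoly.isIntegrallyClosed_dvd hint hg
  obtain ⟨u, hu⟩ := h1
  rcases hirr.isUnit_or_isUnit hu with h | h
  · exact absurd h (minpoly.irreducible hint).not_isUnit
  · have h3 : Associated (minpoly ℤ α) P := by
      rw [hu]
      exact associated_mul_unit_right _ _ h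
    exact h3.symm.dvd.trans h2

lemma eq_of_common {P Q : ℤ[X]} (hP : P.Monic) (hPi : Irreducible P) (hQ : Q.Monic)
    (hQi : Irreducible Q) {α : ℂ} (h1 : aeval α P = 0) (h2 : aeval α Q = 0) : P = Q :=
  eq_of_monic_of_associated hP hQ
    (associated_of_dvd_dvd (dvd_of_common hP hPi h1 h2) (dvd_of_common hQ hQi h2 h1))

lemma sep_pc {P : ℤ[X]} (hP : P.Monic) (hPi : Irreducible P) : (pc P).Separable := by
  have hirrQ : Irreducible (P.map (Int.castRingHom ℚ)) :=
    (IsPrimitive.Int.irreducible_iff_irreducible_map_cast hP.isPrimitive).mp hPi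
  have hsep := hirrQ.separable.map (f := algebraMap ℚ ℂ)
  rw [Polynomial.map_map] at hsep
  have h : (algebraMap ℚ ℂ).comp (Int.castRingHom ℚ) = Int.castRingHom ℂ :=
    RingHom.ext_int _ _
  rw [h] at hsep
  exact hsep

lemma deriv_ne {P : ℤ[X]} (hP : P.Monic) (hPi : Irreducible P) {z : ℂ} (hz : aeval z P = 0) :
    aeval z (derivative P) ≠ 0 := by
  have hsep := sep_pc hP hPi
  have h := hsep.eval₂_derivative_ne_zero (RingHom.id ℂ) (x := z) (by
    rw [← eval_pc] at hz
    rw [← hz, eval, ])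
  intro h2
  apply h
  rw [← eval_pc] at h2
  have h3 : pc (derivative P) = derivative (pc P) := by
    unfold pc
    rw [derivative_map]
  rw [h3] at h2
  rw [← h2, eval]

/-- The finite set of complex roots. -/
noncomputable def Rt (P : ℤ[X]) : Finset ℂ := (pc P).roots.toFinset

lemma mem_Rt {P : ℤ[X]} (hP : P.Monic) (z : ℂ) : z ∈ Rt P ↔ aeval z P = 0 := by
  have hmon : (pc P).Monic := hP.map _
  unfold Rt
  rw [Multiset.mem_toFinset, mem_roots hmon.ne_zero, IsRoot.def, eval_pc]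

lemma Rt_nodup {P : ℤ[X]} (hP : P.Monic) (hPi : Irreducible P) : (pc P).roots.Nodup :=
  nodup_roots (sep_pc hP hPi)

lemma Rt_val {P : ℤ[X]} (hP : P.Monic) (hPi : Irreducible P) : (Rt P).val = (pc P).roots := by
  unfold Rt
  rw [Multiset.toFinset_val, (Rt_nodup hP hPi).dedup]

lemma log_res {P Q : ℤ[X]} (hP : P.Monic) (hPi : Irreducible P) (hQ : Q.Monic)
    (hQi : Irreducible Q) (hne : P ≠ Q) :
    0 ≤ ∑ z ∈ Rt P, ∑ w ∈ Rt Q, Real.log ‖z - w‖ := by
  have hco : ∀ z : ℂ, aeval z P = 0 → aeval z Q ≠ 0 := fun z hz hz2 =>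
    hne (eq_of_common hP hPi hQ hQi hz hz2)
  have h := one_le_prod_roots hP hco
  have h1 : ((pc P).roots.map (fun z => (pc Q).eval z)).prod = ∏ z ∈ Rt P, ∏ w ∈ Rt Q, (z - w) := by
    have h2 : ∀ z : ℂ, (pc Q).eval z = ∏ w ∈ Rt Q, (z - w) := by
      intro z
      rw [(IsAlgClosed.splits (pc Q)).eval_eq_prod_roots_of_monic (hQ.map _)]
      rw [Finset.prod, Rt_val hQ hQi]
    simp only [h2]
    rw [Finset.prod, Rt_val hP hPi]
  rw [h1, norm_prod] at h
  have h3 := Real.log_nonneg h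
  have hne2 : ∀ z ∈ Rt P, ∀ w ∈ Rt Q, ‖z - w‖ ≠ 0 := by
    intro z hz w hw h4
    rw [norm_eq_zero, sub_eq_zero] at h4
    subst h4
    exact hco z ((mem_Rt hP z).mp hz) ((mem_Rt hQ z).mp hw)
  rw [Real.log_prod (fun z hz => by
    rw [norm_prod]
    exact Finset.prod_ne_zero_iff.mpr (hne2 z hz))] at h3
  calc (0:ℝ) ≤ _ := h3
    _ = _ := by
      apply Finset.sum_congr rfl
      intro z hz
      rw [norm_prod, Real.log_prod (hne2 z hz)]

lemma log_disc {P : ℤ[X]} (hP : P.Monic) (hPi : Irreducible P) :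
    0 ≤ ∑ z ∈ Rt P, ∑ w ∈ Rt P, if z = w then 0 else Real.log ‖z - w‖ := by
  classical
  have h := one_le_prod_roots hP (fun z hz => deriv_ne hP hPi hz)
  have h1 : ((pc P).roots.map (fun z => (pc (derivative P)).eval z)).prod =
      ∏ z ∈ Rt P, ∏ w ∈ (Rt P).erase z, (z - w) := by
    have h2 : ∀ z ∈ (pc P).roots, (pc (derivative P)).eval z = ∏ w ∈ (Rt P).erase z, (z - w) := by
      intro z hz
      have h3 : pc (derivative P) = derivative (pc P) := by
        unfold pc
        rw [derivative_map]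
      rw [h3, (IsAlgClosed.splits (pc P)).eval_root_derivative (hP.map _) hz]
      rw [Finset.prod, Finset.erase_val, Rt_val hP hPi]
    rw [Multiset.map_congr rfl h2]
    rw [Finset.prod, Rt_val hP hPi]
  rw [h1, norm_prod] at h
  have h3 := Real.log_nonneg h
  have hne2 : ∀ z ∈ Rt P, ∀ w ∈ (Rt P).erase z, ‖z - w‖ ≠ 0 := by
    intro z hz w hw h4
    rw [norm_eq_zero, sub_eq_zero] at h4
    subst h4
    exact Finset.notMem_erase _ _ hw
  rw [Real.log_prod (fun z hz => by
    rw [norm_prod]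
    exact Finset.prod_ne_zero_iff.mpr (hne2 z hz))] at h3
  calc (0:ℝ) ≤ _ := h3
    _ = _ := by
      apply Finset.sum_congr rfl
      intro z hz
      rw [norm_prod, Real.log_prod (hne2 z hz), ← Finset.add_sum_erase (Rt P) _ hz, if_pos rfl,
        zero_add]
      apply Finset.sum_congr rfl
      intro w hw
      rw [if_neg (Finset.ne_of_mem_erase hw).symm]

lemma Rt_nonempty {P : ℤ[X]} (hP : P.Monic) (hPi : Irreducible P) : (Rt P).Nonempty := by
  have hdegpos : P.natDegree ≠ 0 := by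
    intro h0
    have h1 := hP.natDegree_eq_zero.mp h0
    exact hPi.not_isUnit (by rw [h1]; exact isUnit_one)
  have hdeg' : (P.map (Int.castRingHom ℂ)).degree ≠ 0 := by
    rw [degree_eq_natDegree (hP.map _).ne_zero, hP.natDegree_map]
    exact_mod_cast hdegpos
  obtain ⟨α, hα⟩ := IsAlgClosed.exists_root _ hdeg'
  refine ⟨α, ?_⟩
  rw [mem_Rt hP, ← eval_pc]
  exact hα

/-- The shifted and rescaled real parts of the roots. -/
noncomputable def Xs (c κ : ℝ) (P : ℤ[X]) : Finset ℝ := (Rt P).image (fun z => (z.re - c) / κ)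

lemma inj_re {P : ℤ[X]} (hP : P.Monic) (hreal : ∀ z : ℂ, aeval z P = 0 → z.im = 0)
    (c : ℝ) {κ : ℝ} (hκ : 0 < κ) :
    Set.InjOn (fun z : ℂ => (z.re - c) / κ) (Rt P : Set ℂ) := by
  intro z hz w hw h
  rw [Finset.mem_coe, mem_Rt hP] at hz hw
  apply Complex.ext
  · have h1 : (z.re - c) / κ = (w.re - c) / κ := h
    rw [div_left_inj' hκ.ne'] at h1
    linarith
  · rw [hreal z hz, hreal w hw]

lemma card_Xs {P : ℤ[X]} (hP : P.Monic) (hreal : ∀ z : ℂ, aeval z P = 0 → z.im = 0)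
    (c : ℝ) {κ : ℝ} (hκ : 0 < κ) : (Xs c κ P).card = (Rt P).card :=
  Finset.card_image_of_injOn (inj_re hP hreal c hκ)

lemma log_diff {z w : ℂ} (hz : z.im = 0) (hw : w.im = 0) (c : ℝ) {κ : ℝ} (hκ : 0 < κ)
    (hne : z ≠ w) : Real.log |(z.re - c) / κ - (w.re - c) / κ| =
      Real.log ‖z - w‖ - Real.log κ := by
  have h1 : (z.re - c) / κ - (w.re - c) / κ = (z.re - w.re) / κ := by ring
  have h2 : ‖z - w‖ = |z.re - w.re| := by
    have h4 : z - w = ((z.re - w.re : ℝ) : ℂ) := by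
      apply Complex.ext
      · simp
      · simp [hz, hw]
    rw [h4, Complex.norm_real, Real.norm_eq_abs]
  have h3 : ‖z - w‖ ≠ 0 := by
    rw [norm_ne_zero_iff]
    exact sub_ne_zero.mpr hne
  rw [h1, abs_div, abs_of_pos hκ, ← h2, Real.log_div h3 hκ.ne']

lemma self_Xs {P : ℤ[X]} (hP : P.Monic) (hPi : Irreducible P)
    (hreal : ∀ z : ℂ, aeval z P = 0 → z.im = 0) (c : ℝ) {κ : ℝ} (hκ : 0 < κ) :
    - Real.log κ * (((Xs c κ P).card : ℝ) * (Xs c κ P).card - (Xs c κ P).card) ≤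
      ∑ x ∈ Xs c κ P, ∑ y ∈ Xs c κ P, if x = y then 0 else Real.log |x - y| := by
  classical
  rw [card_Xs hP hreal c hκ]
  unfold Xs
  rw [Finset.sum_image (inj_re hP hreal c hκ)]
  have h0 : ∑ z ∈ Rt P, ∑ w ∈ Rt P, (if z = w then 0 else Real.log κ) =
      Real.log κ * (((Rt P).card : ℝ) * (Rt P).card - (Rt P).card) := by
    have h1 : ∀ z ∈ Rt P, ∑ w ∈ Rt P, (if z = w then 0 else Real.log κ) =
        Real.log κ * ((Rt P).card - 1) := by
      intro z hz
      rw [← Finset.add_sum_erase (Rt P) _ hz, if_pos rfl, zero_add]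
      have h2 : ∀ w ∈ (Rt P).erase z, (if z = w then 0 else Real.log κ) = Real.log κ := by
        intro w hw
        rw [if_neg (Finset.ne_of_mem_erase hw).symm]
      rw [Finset.sum_congr rfl h2, Finset.sum_const, nsmul_eq_mul, Finset.card_erase_of_mem hz,
        Nat.cast_sub (Finset.card_pos.mpr ⟨z, hz⟩)]
      push_cast
      ring
    rw [Finset.sum_congr rfl h1, Finset.sum_const, nsmul_eq_mul]
    ring
  have h1 := log_disc hP hPi
  have h2 : ∑ z ∈ Rt P, ∑ y ∈ (Rt P).image (fun z => (z.re - c) / κ),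
      (if (z.re - c) / κ = y then 0 else Real.log |(z.re - c) / κ - y|) =
      ∑ z ∈ Rt P, ∑ w ∈ Rt P, (if z = w then 0 else Real.log ‖z - w‖) -
        ∑ z ∈ Rt P, ∑ w ∈ Rt P, (if z = w then 0 else Real.log κ) := by
    rw [← Finset.sum_sub_distrib]
    apply Finset.sum_congr rfl
    intro z hz
    rw [Finset.sum_image (inj_re hP hreal c hκ), ← Finset.sum_sub_distrib]
    apply Finset.sum_congr rfl
    intro w hw
    have hzr := hreal z ((mem_Rt hP z).mp hz)
    have hwr := hreal w ((mem_Rt hP w).mp hw)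
    by_cases h : z = w
    · rw [if_pos h, if_pos h, if_pos (by rw [h])]
      ring
    · have h3 : (z.re - c) / κ ≠ (w.re - c) / κ := fun h4 => h (inj_re hP hreal c hκ hz hw h4)
      rw [if_neg h, if_neg h, if_neg h3, log_diff hzr hwr c hκ h]
  rw [h2, h0]
  linarith

lemma res_Xs {P Q : ℤ[X]} (hP : P.Monic) (hPi : Irreducible P)
    (hPr : ∀ z : ℂ, aeval z P = 0 → z.im = 0) (hQ : Q.Monic)
    (hQi : Irreducible Q) (hQr : ∀ z : ℂ, aeval z Q = 0 → z.im = 0) (hne : P ≠ Q)
    (c : ℝ) {κ : ℝ} (hκ : 0 < κ) :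
    - Real.log κ * (((Xs c κ P).card : ℝ) * (Xs c κ Q).card) ≤
      ∑ x ∈ Xs c κ P, ∑ y ∈ Xs c κ Q, Real.log |x - y| := by
  classical
  rw [card_Xs hP hPr c hκ, card_Xs hQ hQr c hκ]
  unfold Xs
  rw [Finset.sum_image (inj_re hP hPr c hκ)]
  have h1 := log_res hP hPi hQ hQi hne
  have h2 : ∑ z ∈ Rt P, ∑ y ∈ (Rt Q).image (fun z => (z.re - c) / κ),
      Real.log |(z.re - c) / κ - y| =
      ∑ z ∈ Rt P, ∑ w ∈ Rt Q, Real.log ‖z - w‖ - Real.log κ * ((Rt P).card * (Rt Q).card) := by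
    have h3 : Real.log κ * (((Rt P).card : ℝ) * (Rt Q).card) =
        ∑ z ∈ Rt P, ∑ w ∈ Rt Q, Real.log κ := by
      simp only [Finset.sum_const, nsmul_eq_mul]
      ring
    rw [h3, ← Finset.sum_sub_distrib]
    apply Finset.sum_congr rfl
    intro z hz
    rw [Finset.sum_image (inj_re hQ hQr c hκ), ← Finset.sum_sub_distrib]
    apply Finset.sum_congr rfl
    intro w hw
    rw [mem_Rt hP] at hz
    rw [mem_Rt hQ] at hw
    have hzw : z ≠ w := by
      rintro rfl
      exact hne (eq_of_common hP hPi hQ hQi hz hw)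
    rw [log_diff (hPr z hz) (hQr w hw) c hκ hzw]
  rw [h2]
  linarith

lemma disj_Xs {P Q : ℤ[X]} (hP : P.Monic) (hPi : Irreducible P)
    (hPr : ∀ z : ℂ, aeval z P = 0 → z.im = 0) (hQ : Q.Monic)
    (hQi : Irreducible Q) (hQr : ∀ z : ℂ, aeval z Q = 0 → z.im = 0) (hne : P ≠ Q)
    (c : ℝ) {κ : ℝ} (hκ : 0 < κ) : Disjoint (Xs c κ P) (Xs c κ Q) := by
  rw [Finset.disjoint_left]
  intro x hx hy
  unfold Xs at hx hy
  rw [Finset.mem_image] at hx hy
  obtain ⟨z, hz, rfl⟩ := hx
  obtain ⟨w, hw, h⟩ := hy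
  rw [mem_Rt hP] at hz
  rw [mem_Rt hQ] at hw
  have hzw : w = z := by
    apply Complex.ext
    · rw [div_left_inj' hκ.ne'] at h
      linarith
    · rw [hPr z hz, hQr w hw]
  subst hzw
  exact hne (eq_of_common hP hPi hQ hQi hz hw)

end Pool.Agent.Lib.MP_f0992b_nt
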