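import Mathlib
import Pool.Agent.Lib.MP_f0992b_nt.CountCore

set_option autoImplicit false

open Finset

namespace Pool.Agent.Lib.MP_f0992b_nt

/-- The count with an explicit constant. -/
theorem count_bound {F : Finset (Finset ℝ)} {μ : ℝ} {D : ℕ} (hF : Fam F μ)
    (hdeg : ∀ X ∈ F, X.card ≤ D) (hD : 1 ≤ D) (hμ0 : 0 ≤ μ) (hμ : μ ≤ 1 / (64 * (D:ℝ) ^ 2)) :
    (F.card : ℝ) ≤ 320 * D * (1 + Real.log D) := by
  have hD1 : (1:ℝ) ≤ D := by exact_mod_cast hD
  have hD0 : (0:ℝ) < D := by linarith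
  have hlogD : 0 ≤ Real.log D := Real.log_nonneg hD1
  set M : ℝ := (F.card : ℝ) with hM
  have hM0 : 0 ≤ M := Nat.cast_nonneg _
  set δ : ℝ := 1 / (64 * (D:ℝ) ^ 2) with hδ
  have hδ0 : 0 < δ := by positivity
  have hδ1 : δ ≤ 1 / 64 := by
    rw [hδ]
    apply one_div_le_one_div_of_le (by norm_num)
    nlinarith
  have h := count_param hF hdeg hμ0 (1 - δ) (by linarith) (by linarith) (4 * D)
  rw [← hM] at h
  set T : ℝ := ∑ X ∈ F, (X.card : ℝ) with hT
  have hT1 : T ≤ D * M := by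
    rw [hT]
    calc ∑ X ∈ F, (X.card : ℝ) ≤ ∑ X ∈ F, (D : ℝ) :=
          Finset.sum_le_sum fun X hX => by exact_mod_cast hdeg X hX
      _ = D * M := by rw [Finset.sum_const, nsmul_eq_mul, hM]; ring
  have hT0 : 0 ≤ T := Finset.sum_nonneg fun X _ => Nat.cast_nonneg _
  have hpow : (15 / 16 : ℝ) ≤ (1 - δ) ^ (4 * D) := by
    have h1 := one_add_mul_le_pow (a := -δ) (by linarith) (4 * D)
    have h2 : ((4 * D : ℕ) : ℝ) * δ ≤ 1 / 16 := by
      rw [hδ]
      push_cast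
      rw [mul_one_div, div_le_div_iff₀ (by positivity) (by norm_num)]
      nlinarith
    have h3 : (1 : ℝ) + -δ = 1 - δ := by ring
    rw [h3] at h1
    linarith
  have hL : Real.log (2 / (1 + (1 - δ))) ≤ 64 / 127 * δ := by
    have h0 : (0:ℝ) < 1 + (1 - δ) := by linarith
    have h1 := Real.log_le_sub_one_of_pos (div_pos (by norm_num : (0:ℝ) < 2) h0)
    have h2 : 2 / (1 + (1 - δ)) - 1 ≤ 64 / 127 * δ := by
      rw [sub_le_iff_le_add, div_le_iff₀ h0]
      nlinarith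
    linarith
  have hB : - Real.log (1 - (1 - δ)) ≤ 104 / 25 + 2 * Real.log D := by
    have h1 : 1 - (1 - δ) = δ := by ring
    rw [h1, hδ, one_div, Real.log_inv, neg_neg,
      Real.log_mul (by norm_num) (by positivity), Real.log_pow]
    have h2 : Real.log 64 = 6 * Real.log 2 := by
      rw [show (64:ℝ) = 2 ^ 6 by norm_num, Real.log_pow]
      push_cast
      ring
    have h3 := Real.log_two_lt_d9
    push_cast
    rw [h2]
    have h4 : (0.6931471808:ℝ) ≤ 52 / 75 := by norm_num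
    linarith
  set Q : ℝ := 4 * (- Real.log (1 - (1 - δ))) +
    (4 * Real.log (2 / (1 + (1 - δ))) + 2 * μ) * T with hQ
  have hL0 : 0 ≤ Real.log (2 / (1 + (1 - δ))) := by
    apply Real.log_nonneg
    rw [le_div_iff₀ (by linarith)]
    linarith
  have hQ1 : Q ≤ 416 / 25 + 8 * Real.log D + 255 / 4064 * (M / D) := by
    have h0 : 4 * Real.log (2 / (1 + (1 - δ))) + 2 * μ ≤ 510 / 127 * δ := by
      linarith
    have h1 : (4 * Real.log (2 / (1 + (1 - δ))) + 2 * μ) * T ≤ 510 / 127 * δ * (D * M) :=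
      mul_le_mul h0 hT1 hT0 (mul_nonneg (by norm_num) hδ0.le)
    have h2 : 510 / 127 * δ * (D * M) = 255 / 4064 * (M / D) := by
      rw [hδ]
      field_simp
      ring
    rw [hQ]
    linarith
  have hQ0 : 0 ≤ Q := by
    rw [hQ]
    have h1 := Real.log_nonpos (by linarith : (0:ℝ) ≤ 1 - (1 - δ)) (by linarith)
    have h4 : 0 ≤ (4 * Real.log (2 / (1 + (1 - δ))) + 2 * μ) * T :=
      mul_nonneg (by linarith) hT0
    linarith
  have hn : ((4 * D : ℕ) : ℝ) = 4 * D := by push_cast; ring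
  rw [hn] at h
  have hfrac : 4 * (D:ℝ) / (1 - δ) ^ (4 * D) ≤ 4 * D * (16 / 15) := by
    rw [div_le_iff₀ (by linarith)]
    nlinarith
  have h5 : 4 * (D:ℝ) / (1 - δ) ^ (4 * D) * Q ≤ 4 * D * (16 / 15) * Q :=
    mul_le_mul_of_nonneg_right hfrac hQ0
  have h6 : 16 * (D:ℝ) ^ 2 * M ≤ 16 * (D:ℝ) ^ 2 * (2 * (4 * D * (16 / 15) * Q)) := by
    have h7 : (4 * (D:ℝ)) ^ 2 * (2 * (4 * (D:ℝ) / (1 - δ) ^ (4 * D) * Q)) ≤
        16 * (D:ℝ) ^ 2 * (2 * (4 * D * (16 / 15) * Q)) := by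
      have : (4 * (D:ℝ)) ^ 2 = 16 * (D:ℝ) ^ 2 := by ring
      rw [this]
      apply mul_le_mul_of_nonneg_left _ (by positivity)
      linarith
    nlinarith
  have h7 : M ≤ 2 * (4 * D * (16 / 15) * Q) :=
    le_of_mul_le_mul_left h6 (by positivity)
  have h8 : 2 * (4 * D * (16 / 15) * Q) ≤
      2 * (4 * D * (16 / 15) * (416 / 25 + 8 * Real.log D + 255 / 4064 * (M / D))) := by
    apply mul_le_mul_of_nonneg_left _ (by norm_num)
    apply mul_le_mul_of_nonneg_left hQ1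
    exact mul_nonneg (mul_nonneg (by norm_num) hD0.le) (by norm_num)
  have h9 : 2 * (4 * D * (16 / 15) * (416 / 25 + 8 * Real.log D + 255 / 4064 * (M / D))) =
      128 / 15 * D * (416 / 25 + 8 * Real.log D) + 68 / 127 * M := by
    field_simp
    ring
  have h10 : 59 / 127 * M ≤ 128 / 15 * D * (416 / 25 + 8 * Real.log D) := by
    linarith
  have h11 : 0 ≤ (D:ℝ) * Real.log D := mul_nonneg hD0.le hlogD
  have h12 : 128 / 15 * (D:ℝ) * (416 / 25 + 8 * Real.log D) =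
      53248 / 375 * D + 1024 / 15 * ((D:ℝ) * Real.log D) := by ring
  have h13 : 320 * (D:ℝ) * (1 + Real.log D) = 320 * D + 320 * ((D:ℝ) * Real.log D) := by ring
  rw [h12] at h10
  rw [h13]
  linarith

end Pool.Agent.Lib.MP_f0992b_nt
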