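import Mathlib
import Pool.Agent.Lib.MP_f0992b_nt.CountBound
import Pool.Agent.Lib.MP_f0992b_nt.CountArith

set_option autoImplicit false

open Finset Polynomial

namespace Pool.Agent.Lib.MP_f0992b_nt

/-- A monic irreducible integer polynomial all of whose complex zeros are real and lie in
`[c - 2 κ, c + 2 κ]`. -/
structure RealIrr (c κ : ℝ) (P : ℤ[X]) : Prop where
  monic : P.Monic
  irr : Irreducible P
  real : ∀ z : ℂ, aeval z P = 0 → z.im = 0
  mem : ∀ z : ℂ, aeval z P = 0 → |z.re - c| ≤ 2 * κ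

lemma Xs_inj {c κ : ℝ} (hκ : 0 < κ) {P Q : ℤ[X]} (hP : RealIrr c κ P) (hQ : RealIrr c κ Q)
    (h : Xs c κ P = Xs c κ Q) : P = Q := by
  by_contra hne
  have h1 := disj_Xs hP.monic hP.irr hP.real hQ.monic hQ.irr hQ.real hne c hκ
  rw [← h, disjoint_self, Finset.bot_eq_empty, ← Finset.card_eq_zero,
    card_Xs hP.monic hP.real c hκ, Finset.card_eq_zero] at h1
  exact (Rt_nonempty hP.monic hP.irr).ne_empty h1

/-- The family of point sets attached to a finite set of polynomials. -/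
lemma fam_of_poly {c κ : ℝ} (hκ : 0 < κ) (G : Finset ℤ[X]) (hG : ∀ P ∈ G, RealIrr c κ P) :
    Fam (G.image (Xs c κ)) (Real.log κ) := by
  constructor
  · intro X hX x hx
    rw [Finset.mem_image] at hX
    obtain ⟨P, hP, rfl⟩ := hX
    unfold Xs at hx
    rw [Finset.mem_image] at hx
    obtain ⟨z, hz, rfl⟩ := hx
    have h1 := (hG P hP).mem z ((mem_Rt (hG P hP).monic z).mp hz)
    rw [abs_div, abs_of_pos hκ, div_le_iff₀ hκ]
    exact h1
  · intro X hX
    rw [Finset.mem_image] at hX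
    obtain ⟨P, hP, rfl⟩ := hX
    rw [card_Xs (hG P hP).monic (hG P hP).real c hκ]
    exact Finset.card_pos.mpr (Rt_nonempty (hG P hP).monic (hG P hP).irr)
  · intro X hX
    rw [Finset.mem_image] at hX
    obtain ⟨P, hP, rfl⟩ := hX
    exact self_Xs (hG P hP).monic (hG P hP).irr (hG P hP).real c hκ
  · intro X hX Y hY hne
    rw [Finset.mem_image] at hX hY
    obtain ⟨P, hP, rfl⟩ := hX
    obtain ⟨Q, hQ, rfl⟩ := hY
    have hPQ : P ≠ Q := fun h => hne (by rw [h])
    exact disj_Xs (hG P hP).monic (hG P hP).irr (hG P hP).real (hG Q hQ).monic (hG Q hQ).irr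
      (hG Q hQ).real hPQ c hκ
  · intro X hX Y hY hne
    rw [Finset.mem_image] at hX hY
    obtain ⟨P, hP, rfl⟩ := hX
    obtain ⟨Q, hQ, rfl⟩ := hY
    have hPQ : P ≠ Q := fun h => hne (by rw [h])
    exact res_Xs (hG P hP).monic (hG P hP).irr (hG P hP).real (hG Q hQ).monic (hG Q hQ).irr
      (hG Q hQ).real hPQ c hκ

lemma card_image_Xs {c κ : ℝ} (hκ : 0 < κ) (G : Finset ℤ[X]) (hG : ∀ P ∈ G, RealIrr c κ P) :
    (G.image (Xs c κ)).card = G.card :=
  Finset.card_image_of_injOn (fun P hP Q hQ h => Xs_inj hκ (hG P hP) (hG Q hQ) h)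

/-- The count of polynomials of bounded degree in an interval of length barely larger than 4. -/
lemma card_poly_le {c κ : ℝ} {D : ℕ} (hD1 : 1 ≤ D) (hκ1 : 1 ≤ κ)
    (hκ2 : κ ≤ 1 + 1 / (64 * (D:ℝ) ^ 2)) (G : Finset ℤ[X])
    (hG : ∀ P ∈ G, RealIrr c κ P) (hD : ∀ P ∈ G, (Rt P).card ≤ D) :
    (G.card : ℝ) ≤ 320 * D * (1 + Real.log D) := by
  have hκ : 0 < κ := by linarith
  have hdeg : ∀ X ∈ G.image (Xs c κ), X.card ≤ D := by
    intro X hX
    rw [Finset.mem_image] at hX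
    obtain ⟨P, hP, rfl⟩ := hX
    rw [card_Xs (hG P hP).monic (hG P hP).real c hκ]
    exact hD P hP
  have hlog : Real.log κ ≤ 1 / (64 * (D:ℝ) ^ 2) := by
    have := Real.log_le_sub_one_of_pos hκ
    linarith
  have h1 := count_bound (fam_of_poly hκ G hG) hdeg hD1 (Real.log_nonneg hκ1) hlog
  rwa [card_image_Xs hκ G hG] at h1

/-- A set all of whose finite subsets have at most `B` elements is finite with at most `B`
elements. -/
lemma finite_of_bounded {α : Type*} (S : Set α) (B : ℝ)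
    (h : ∀ t : Finset α, (t : Set α) ⊆ S → (t.card : ℝ) ≤ B) :
    S.Finite ∧ (S.ncard : ℝ) ≤ B := by
  have hfin : S.Finite := by
    by_contra hinf
    obtain ⟨t, ht, hcard⟩ := Set.Infinite.exists_subset_card_eq hinf (⌊B⌋₊ + 1)
    have h1 := h t ht
    rw [hcard] at h1
    push_cast at h1
    have h2 := Nat.lt_floor_add_one B
    linarith
  refine ⟨hfin, ?_⟩
  rw [Set.ncard_eq_toFinset_card S hfin]
  exact h _ (by simp)

end Pool.Agent.Lib.MP_f0992b_nt
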