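import Mathlib
import Pool.Agent.Lib.MP_f0992b_nt.CountFam

set_option autoImplicit false

open Finset Polynomial

namespace Pool.Agent.Lib.MP_f0992b_nt

/-- Polynomials of large degree in an interval shorter than 4. -/
lemma card_large_le {c ε : ℝ} {D : ℕ} (hε : 0 < ε) (hε1 : ε ≤ 1) (hD : 0 < D) (G : Finset ℤ[X])
    (hG : ∀ P ∈ G, RealIrr c (1 - ε / 2) P) (hdeg : ∀ P ∈ G, D ≤ (Rt P).card) :
    (G.card : ℝ) ≤ 15 / 11 * (4 * Real.log (8 / ε) / ε + 1) / D := by
  have hκ : 0 < 1 - ε / 2 := by linarith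
  have hD0 : (0:ℝ) < D := by exact_mod_cast hD
  set lam : ℝ := - Real.log (1 - ε / 2) with hlam
  have hlam1 : ε / 2 ≤ lam := by
    have := Real.log_le_sub_one_of_pos hκ
    linarith
  have hdeg2 : ∀ X ∈ G.image (Xs c (1 - ε / 2)), D ≤ X.card := by
    intro X hX
    rw [Finset.mem_image] at hX
    obtain ⟨P, hP, rfl⟩ := hX
    rw [card_Xs (hG P hP).monic (hG P hP).real c hκ]
    exact hdeg P hP
  have h := large_param (fam_of_poly hκ G hG) hD hdeg2 (by linarith) (1 - ε / 8) (by linarith)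
    (by linarith)
  rw [card_image_Xs hκ G hG] at h
  set M : ℝ := (G.card : ℝ) with hM
  have hM0 : 0 ≤ M := Nat.cast_nonneg _
  have hL : Real.log (2 / (1 + (1 - ε / 8))) ≤ ε / 15 := by
    have h0 : (0:ℝ) < 1 + (1 - ε / 8) := by linarith
    have h1 := Real.log_le_sub_one_of_pos (div_pos (by norm_num : (0:ℝ) < 2) h0)
    have h2 : 2 / (1 + (1 - ε / 8)) - 1 ≤ ε / 15 := by
      rw [sub_le_iff_le_add, div_le_iff₀ h0]
      nlinarith
    linarith
  have hB : - Real.log (1 - (1 - ε / 8)) = Real.log (8 / ε) := by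
    have h1 : 1 - (1 - ε / 8) = (8 / ε)⁻¹ := by
      rw [inv_div]
      ring
    rw [h1, Real.log_inv, neg_neg]
  have hlog8 : 0 ≤ Real.log (8 / ε) := by
    apply Real.log_nonneg
    rw [le_div_iff₀ hε]
    linarith
  have hmu : Real.log (1 - ε / 2) = - lam := by rw [hlam, neg_neg]
  rw [hB, hmu] at h
  have h1 : 22 / 15 * lam * M ^ 2 ≤ (4 * Real.log (8 / ε) + 2 * lam) * (M / D) := by
    have h2 : 22 / 15 * lam ≤ - (4 * Real.log (2 / (1 + (1 - ε / 8))) + 2 * -lam) := by
      linarith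
    have h3 := mul_le_mul_of_nonneg_right h2 (sq_nonneg M)
    have h4 : (4 * Real.log (8 / ε) - 2 * -lam) = (4 * Real.log (8 / ε) + 2 * lam) := by ring
    rw [h4] at h
    linarith
  rcases eq_or_lt_of_le hM0 with h0 | h0
  · rw [← h0]
    positivity
  · have hlam0 : 0 < lam := by linarith
    have h2 : M ≤ (4 * Real.log (8 / ε) + 2 * lam) / (22 / 15 * lam * D) := by
      rw [le_div_iff₀ (by positivity)]
      have h3 : (4 * Real.log (8 / ε) + 2 * lam) * (M / D) * D =
          (4 * Real.log (8 / ε) + 2 * lam) * M := by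
        field_simp
      have h4 := mul_le_mul_of_nonneg_right h1 hD0.le
      rw [h3] at h4
      have h5 : (M * (22 / 15 * lam * D)) * M ≤ (4 * Real.log (8 / ε) + 2 * lam) * M := by
        calc (M * (22 / 15 * lam * D)) * M = 22 / 15 * lam * M ^ 2 * D := by ring
          _ ≤ _ := h4
      exact le_of_mul_le_mul_right h5 h0
    refine h2.trans ?_
    have h3 : (4 * Real.log (8 / ε) + 2 * lam) / (22 / 15 * lam * D) =
        15 / 11 * (2 * Real.log (8 / ε) / lam + 1) / D := by
      field_simp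
      ring
    rw [h3]
    apply div_le_div_of_nonneg_right _ hD0.le
    apply mul_le_mul_of_nonneg_left _ (by norm_num)
    have h4 : 2 * Real.log (8 / ε) / lam ≤ 4 * Real.log (8 / ε) / ε := by
      rw [div_le_div_iff₀ hlam0 hε]
      nlinarith
    linarith

/-- Total number of conjugate sets in an interval shorter than 4. -/
lemma card_gap_le {c ε : ℝ} (hε : 0 < ε) (hε1 : ε ≤ 1) (G : Finset ℤ[X])
    (hG : ∀ P ∈ G, RealIrr c (1 - ε / 2) P) :
    (G.card : ℝ) ≤ 1200 * (1 + Real.log (1 / ε)) / Real.sqrt ε := by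
  classical
  have hs : 0 < Real.sqrt ε := Real.sqrt_pos.mpr hε
  have hs1 : Real.sqrt ε ≤ 1 := by
    rw [Real.sqrt_le_one]
    exact hε1
  have hss : Real.sqrt ε * Real.sqrt ε = ε := Real.mul_self_sqrt hε.le
  set u : ℝ := 1 / Real.sqrt ε with hu
  have hu1 : 1 ≤ u := by
    rw [hu, le_div_iff₀ hs]
    linarith
  have huu : u * u = 1 / ε := by
    rw [hu]
    field_simp
    rw [sq, hss]
  set D : ℕ := ⌈u⌉₊ with hD
  have hDu : u ≤ D := Nat.le_ceil u
  have hDu2 : (D:ℝ) ≤ 2 * u := by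
    have := Nat.ceil_lt_add_one (by linarith : 0 ≤ u)
    linarith
  have hD1 : 1 ≤ D := by
    have : (1:ℝ) ≤ D := hu1.trans hDu
    exact_mod_cast this
  have hD0 : (0:ℝ) < D := by linarith
  have hloge : 0 ≤ Real.log (1 / ε) := by
    apply Real.log_nonneg
    rw [le_div_iff₀ hε]
    linarith
  have hsplit := Finset.card_filter_add_card_filter_not (s := G) (fun P => (Rt P).card ≤ D)
  have h1 : ((G.filter (fun P => (Rt P).card ≤ D)).card : ℝ) ≤ 320 * D * (1 + Real.log D) := by
    apply card_poly_le (c := c) (κ := 1) hD1 le_rfl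
    · have : 0 < 1 / (64 * (D:ℝ) ^ 2) := by positivity
      linarith
    · intro P hP
      have hP2 := hG P (Finset.mem_filter.mp hP).1
      exact ⟨hP2.monic, hP2.irr, hP2.real, fun z hz => (hP2.mem z hz).trans (by linarith)⟩
    · intro P hP
      exact (Finset.mem_filter.mp hP).2
  have h2 : ((G.filter (fun P => ¬ (Rt P).card ≤ D)).card : ℝ) ≤
      15 / 11 * (4 * Real.log (8 / ε) / ε + 1) / D := by
    apply card_large_le hε hε1 (by omega)
    · intro P hP
      exact hG P (Finset.mem_filter.mp hP).1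
    · intro P hP
      have := (Finset.mem_filter.mp hP).2
      omega
  have h3 : (G.card : ℝ) = ((G.filter (fun P => (Rt P).card ≤ D)).card : ℝ) +
      ((G.filter (fun P => ¬ (Rt P).card ≤ D)).card : ℝ) := by
    rw [← Nat.cast_add, hsplit]
  have hlog2 : Real.log 2 ≤ 7 / 10 := by
    have := Real.log_two_lt_d9
    have h4 : (0.6931471808:ℝ) ≤ 7 / 10 := by norm_num
    linarith
  have hlogu : Real.log (2 * u) = Real.log 2 + 1 / 2 * Real.log (1 / ε) := by
    rw [Real.log_mul (by norm_num) (by linarith), ← huu, Real.log_mul (by linarith) (by linarith)]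
    ring
  have hlog8 : Real.log (8 / ε) = 3 * Real.log 2 + Real.log (1 / ε) := by
    have : (8:ℝ) / ε = 2 ^ 3 * (1 / ε) := by ring
    rw [this, Real.log_mul (by norm_num) (by positivity), Real.log_pow]
    push_cast
    ring
  have h4 : 320 * (D:ℝ) * (1 + Real.log D) ≤
      640 * u * (17 / 10 + 1 / 2 * Real.log (1 / ε)) := by
    have h5 : Real.log D ≤ Real.log (2 * u) := Real.log_le_log hD0 hDu2
    have h6 : 0 ≤ Real.log D := Real.log_nonneg (by exact_mod_cast hD1)
    have h7 : 320 * (D:ℝ) ≤ 640 * u := by linarith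
    have h8 : 1 + Real.log D ≤ 17 / 10 + 1 / 2 * Real.log (1 / ε) := by
      rw [hlogu] at h5
      linarith
    exact mul_le_mul h7 h8 (by linarith) (by linarith)
  have h5 : 15 / 11 * (4 * Real.log (8 / ε) / ε + 1) / D ≤
      15 / 11 * (4 * (21 / 10 + Real.log (1 / ε)) + 1) * u := by
    rw [div_le_iff₀ hD0]
    have h6 : 4 * Real.log (8 / ε) / ε ≤ 4 * (21 / 10 + Real.log (1 / ε)) * (u * u) := by
      rw [huu, hlog8, div_eq_mul_one_div]
      apply mul_le_mul_of_nonneg_right _ (by positivity)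
      linarith
    have h7 : u * u ≤ u * D := mul_le_mul_of_nonneg_left hDu (by linarith)
    have h8 : 1 ≤ u * D := by nlinarith
    have h9 : 0 ≤ 4 * (21 / 10 + Real.log (1 / ε)) := by linarith
    have h10 := mul_le_mul_of_nonneg_left h7 h9
    nlinarith
  have h6 : 1200 * (1 + Real.log (1 / ε)) / Real.sqrt ε = 1200 * (1 + Real.log (1 / ε)) * u := by
    rw [hu]
    ring
  rw [h6, h3]
  have h7 : 0 ≤ u * Real.log (1 / ε) := mul_nonneg (by linarith) hloge
  nlinarith

end Pool.Agent.Lib.MP_f0992b_nt
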