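import Mathlib
import Pool.Agent.Lib.MP_f0992b_nt.Bound

set_option autoImplicit false

open Finset Polynomial

namespace Pool.Agent.Lib.MP_f0992b_nt

lemma exists_large_prime {N y : ℕ} (hN : Squarefree N) (hy : 4 ^ y < N) :
    ∃ p : ℕ, p.Prime ∧ p ∣ N ∧ y < p := by
  by_contra h
  push Not at h
  have h1 : N = ∏ p ∈ N.primeFactors, p := (Nat.prod_primeFactors_of_squarefree hN).symm
  have h2 : N.primeFactors ⊆ (Finset.range (y + 1)).filter Nat.Prime := by
    intro p hp
    rw [Nat.mem_primeFactors] at hp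
    rw [Finset.mem_filter, Finset.mem_range]
    exact ⟨by have := h p hp.1 hp.2.1; omega, hp.1⟩
  have h3 : ∏ p ∈ N.primeFactors, p ≤ primorial y := by
    unfold primorial
    apply Finset.prod_le_prod_of_subset_of_one_le' h2
    intro p hp _
    exact (Finset.mem_filter.mp hp).2.one_lt.le
  have h4 := primorial_le_four_pow y
  omega

lemma card_V_le {N : ℕ} (f : ℤ[X]) : (V N f).card ≤ N := by
  classical
  unfold V
  refine Finset.card_image_le.trans ?_
  rw [Complex.card_primitiveRoots]
  exact Nat.totient_le N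

lemma card_V_parts (N : ℕ) (f : ℤ[X]) :
    (V N f).card ≤ (V N (part f 2 0)).card * (V N (part f 2 1)).card := by
  classical
  have hsub : V N f ⊆ Finset.image₂ (fun x y => x + y) (V N (part f 2 0)) (V N (part f 2 1)) := by
    intro v hv
    unfold V at hv
    rw [Finset.mem_image] at hv
    obtain ⟨z, hz, rfl⟩ := hv
    rw [Finset.mem_image₂]
    refine ⟨aeval z (part f 2 0), ?_, aeval z (part f 2 1), ?_, ?_⟩
    · unfold V; exact Finset.mem_image_of_mem _ hz
    · unfold V; exact Finset.mem_image_of_mem _ hz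
    · rw [aeval_eq_sum_part f (p := 2) (by norm_num) z]
      simp [Finset.sum_range_succ]
  exact (Finset.card_le_card hsub).trans (Finset.card_image₂_le _ _ _)

/-- If `c` is not an integer, the number of conjugates of a cyclotomic integer all of whose
conjugates are real and lie in `[c - 2, c + 2]` is bounded. -/
theorem card_bound (c : ℝ) (hc : c ≠ round c) :
    ∃ D : ℕ, ∀ (N : ℕ), 0 < N → ∀ (f : ℤ[X]), Good N f c → (V N f).card < D := by
  set h : ℝ := (c - round c) ^ 2 with hh
  have hpos : 0 < h := by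
    rw [hh]
    have h0 : c - round c ≠ 0 := sub_ne_zero.mpr hc
    positivity
  have hle : h ≤ 1 / 4 := by
    have := abs_sub_round c
    rw [hh, ← sq_abs]
    have h0 := abs_nonneg (c - round c)
    nlinarith
  obtain ⟨M, hM⟩ := moment_values (h / 4) (by linarith)
  obtain ⟨y₀, hy₀⟩ := exists_nat_ge (4 / (h / 4))
  set y := max 5 y₀ with hy
  refine ⟨max (M * M + M + 1) (4 ^ y + 1), ?_⟩
  set D := max (M * M + M + 1) (4 ^ y + 1) with hD
  have hDM : M * M + M + 1 ≤ D := le_max_left _ _
  have hDy : 4 ^ y + 1 ≤ D := le_max_right _ _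
  intro N
  induction N using Nat.strong_induction_on with
  | _ N ih =>
  intro hN f hf
  by_contra hcon
  push Not at hcon
  obtain ⟨ζ₀, hζ₀⟩ : ∃ ζ : ℂ, IsPrimitiveRoot ζ N := ⟨_, Complex.isPrimitiveRoot_exp N hN.ne'⟩
  have hn : (0 : ℝ) < (primitiveRoots N ℂ).card := by
    rw [Complex.card_primitiveRoots]
    exact_mod_cast Nat.totient_pos.mpr hN
  set n : ℝ := ((primitiveRoots N ℂ).card : ℝ) with hn'
  have hmom := hM N f c hN hf (by omega)
  have hS : ∑ z ∈ primitiveRoots N ℂ, ‖aeval z f - (c : ℂ)‖ ^ 2 ≤ (2 + h / 4) * n := by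
    have h1 : ∑ z ∈ primitiveRoots N ℂ, ‖aeval z f - (c : ℂ)‖ ^ 2 =
        ∑ z ∈ primitiveRoots N ℂ, (((aeval z f).re - c) ^ 2 - 2) + 2 * n := by
      rw [Finset.sum_sub_distrib, Finset.sum_const, nsmul_eq_mul,
        Finset.sum_congr rfl (fun z hz => norm_sq_eq hf hz)]
      ring
    rw [h1]
    have h2 := (abs_le.mp hmom).2
    linarith
  by_cases hA : ∃ p : ℕ, p.Prime ∧ p ≠ 2 ∧ p ^ 2 ∣ N
  · obtain ⟨p, hp, hp2, hpN⟩ := hA
    by_cases hne : ∃ j ∈ (Finset.range p).erase 0, aeval ζ₀ (part f p j) ≠ 0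
    · have h1 := case_odd hN hp hp2 hpN hf hζ₀ hne
      nlinarith
    · push Not at hne
      obtain ⟨g, hg, hsub⟩ := descend_sq hN hp hpN hf hζ₀ hne
      have hpd : p ∣ N := (dvd_pow_self p two_ne_zero).trans hpN
      have h1 := ih (N / p) (Nat.div_lt_self hN hp.one_lt)
        (Nat.div_pos (Nat.le_of_dvd hN hpd) hp.pos) g hg
      have h2 := Finset.card_le_card hsub
      omega
  by_cases hB : 2 ^ 2 ∣ N
  · by_cases hne : ∃ j ∈ (Finset.range 2).erase 0, aeval ζ₀ (part f 2 j) ≠ 0
    · have hne1 : aeval ζ₀ (part f 2 1) ≠ 0 := by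
        obtain ⟨j, hj, hj'⟩ := hne
        rw [Finset.mem_erase, Finset.mem_range] at hj
        have : j = 1 := by omega
        rwa [this] at hj'
      obtain ⟨hg0, hg1⟩ := good_parts hN hB hf
      have hdec := decomp_sq hN Nat.prime_two hB f (c : ℂ)
      have her : (Finset.range 2).erase 0 = {1} := by decide
      rw [her, Finset.sum_singleton] at hdec
      rw [hdec] at hS
      by_cases hcard : M ≤ (V N (part f 2 1)).card
      · have h1 := hM N (part f 2 1) 0 hN hg1 hcard
        have h2 : ∑ z ∈ primitiveRoots N ℂ, ‖aeval z (part f 2 1)‖ ^ 2 =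
            ∑ z ∈ primitiveRoots N ℂ, (((aeval z (part f 2 1)).re - 0) ^ 2 - 2) + 2 * n := by
          rw [Finset.sum_sub_distrib, Finset.sum_const, nsmul_eq_mul,
            ← Finset.sum_congr rfl (fun z hz => norm_sq_eq hg1 hz)]
          simp only [Complex.ofReal_zero, sub_zero]
          ring
        have h3 := (abs_le.mp h1).1
        have h4 := dist_bound hN c (part f 2 0)
        rw [h2] at hS
        nlinarith
      · have hcard0 : M ≤ (V N (part f 2 0)).card := by
          by_contra hlt
          push Not at hlt hcard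
          have h1 := card_V_parts N f
          have h2 : (V N (part f 2 0)).card * (V N (part f 2 1)).card ≤ M * M :=
            Nat.mul_le_mul hlt.le hcard.le
          omega
        have h1 := hM N (part f 2 0) c hN hg0 hcard0
        have h2 : ∑ z ∈ primitiveRoots N ℂ, ‖aeval z (part f 2 0) - (c : ℂ)‖ ^ 2 =
            ∑ z ∈ primitiveRoots N ℂ, (((aeval z (part f 2 0)).re - c) ^ 2 - 2) + 2 * n := by
          rw [Finset.sum_sub_distrib, Finset.sum_const, nsmul_eq_mul,
            Finset.sum_congr rfl (fun z hz => norm_sq_eq hg0 hz)]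
          ring
        have h3 := (abs_le.mp h1).1
        have h4 := card_le_sum_norm_sq hN hζ₀ hne1
        rw [h2] at hS
        nlinarith
    · push Not at hne
      obtain ⟨g, hg, hsub⟩ := descend_sq hN Nat.prime_two hB hf hζ₀ hne
      have hpd : 2 ∣ N := (dvd_pow_self 2 two_ne_zero).trans hB
      have h1 := ih (N / 2) (Nat.div_lt_self hN (by norm_num))
        (Nat.div_pos (Nat.le_of_dvd hN hpd) (by norm_num)) g hg
      have h2 := Finset.card_le_card hsub
      omega
  · have hsq : Squarefree N := by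
      rw [Nat.squarefree_iff_prime_squarefree]
      intro p hp hpp
      rw [← sq] at hpp
      by_cases hp2 : p = 2
      · subst hp2; exact hB hpp
      · exact hA ⟨p, hp, hp2, hpp⟩
    have hNbig : 4 ^ y < N := by
      have := card_V_le (N := N) f
      omega
    obtain ⟨p, hp, ⟨m, rfl⟩, hyp⟩ := exists_large_prime hsq hNbig
    have hm : 0 < m := Nat.pos_of_mul_pos_left hN
    have hpm : p.Coprime m := Nat.coprime_of_squarefree_mul hsq
    have hp5 : 5 ≤ p := le_trans (le_max_left _ _) hyp.le
    have hpy : (y₀ : ℝ) ≤ (p : ℝ) - 1 := by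
      have h1 : y₀ ≤ y := le_max_right _ _
      have h2 : y₀ + 1 ≤ p := by omega
      have h3 : ((y₀ + 1 : ℕ) : ℝ) ≤ p := by exact_mod_cast h2
      push_cast at h3
      linarith
    have h4p : 4 / ((p : ℝ) - 1) ≤ h / 4 := by
      have h5 : 4 / (h / 4) ≤ (p : ℝ) - 1 := hy₀.trans hpy
      have h6 : (0 : ℝ) < (p : ℝ) - 1 := lt_of_lt_of_le (by positivity) h5
      rw [div_le_iff₀ h6]
      rw [div_le_iff₀ (by linarith)] at h5
      linarith
    rcases case_coprime hp hp5 hm hpm hf with ⟨g, hg, hsub⟩ | hbig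
    · have h1 := ih m (by
        have : 1 * m < p * m := Nat.mul_lt_mul_of_pos_right hp.one_lt hm
        omega) hm g hg
      have h2 := Finset.card_le_card hsub
      omega
    · have h1 := hbig.trans hS
      nlinarith

end Pool.Agent.Lib.MP_f0992b_nt
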